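import Pool.Agent.H53.SchattenTrace

/-!
Traces of positive operators and Hilbert-Schmidt sums with respect to arbitrary Hilbert bases.
-/

set_option autoImplicit false
open scoped NNReal ENNReal InnerProductSpace
open ContinuousLinearMap Filter Topology

namespace Pool.Agent.H44.Sch
set_option linter.unusedSectionVars false
set_option linter.deprecated false

open Pool.Agent.H53 (inner_star_left inner_star_right normsq_eq)

universe u
variable {H : Type u} [NormedAddCommGroup H] [InnerProductSpace ℂ H] [CompleteSpace H]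
variable {ι κ : Type*}

/-- Hilbert-Schmidt sum. -/
noncomputable def hsn (f : HilbertBasis ι ℂ H) (x : H →L[ℂ] H) : ℝ≥0∞ :=
  ∑' i, ENNReal.ofReal (‖x (f i)‖ ^ 2)

/-- Trace of a positive operator. -/
noncomputable def tr (f : HilbertBasis ι ℂ H) (A : H →L[ℂ] H) : ℝ≥0∞ :=
  ∑' i, ENNReal.ofReal (⟪f i, A (f i)⟫_ℂ).re

lemma parseval (f : HilbertBasis ι ℂ H) (v : H) :
    ∑' m, ENNReal.ofReal (‖⟪f m, v⟫_ℂ‖ ^ 2) = ENNReal.ofReal (‖v‖ ^ 2) := by
  have h := f.hasSum_inner_mul_inner v v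
  have h2 : HasSum (fun m => ‖⟪f m, v⟫_ℂ‖ ^ 2) (‖v‖ ^ 2) := by
    have h3 : HasSum (fun m => ((‖⟪f m, v⟫_ℂ‖ ^ 2 : ℝ) : ℂ)) ((‖v‖ ^ 2 : ℝ) : ℂ) := by
      have e1 : ∀ m, ⟪v, f m⟫_ℂ * ⟪f m, v⟫_ℂ = ((‖⟪f m, v⟫_ℂ‖ ^ 2 : ℝ) : ℂ) := by
        intro m
        rw [← inner_conj_symm v (f m)]
        rw [Complex.conj_mul']
        push_cast
        rfl
      have e2 : ⟪v, v⟫_ℂ = ((‖v‖ ^ 2 : ℝ) : ℂ) := by
        rw [inner_self_eq_norm_sq_to_K]
        push_cast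
        rfl
      simpa [e1, e2] using h
    exact_mod_cast h3
  rw [← h2.tsum_eq]
  exact (ENNReal.ofReal_tsum_of_nonneg (fun n => by positivity) h2.summable).symm

lemma hsn_star_eq (f : HilbertBasis ι ℂ H) (g : HilbertBasis κ ℂ H) (x : H →L[ℂ] H) :
    hsn f (star x) = hsn g x := by
  unfold hsn
  have e1 : ∀ i, ENNReal.ofReal (‖(star x) (f i)‖ ^ 2) =
      ∑' m, ENNReal.ofReal (‖⟪g m, (star x) (f i)⟫_ℂ‖ ^ 2) := fun i => (parseval g _).symm
  have e2 : ∀ i, ENNReal.ofReal (‖x (g i)‖ ^ 2) =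
      ∑' m, ENNReal.ofReal (‖⟪f m, x (g i)⟫_ℂ‖ ^ 2) := fun i => (parseval f _).symm
  simp_rw [e1, e2]
  rw [ENNReal.tsum_comm]
  congr 1
  ext m
  congr 1
  ext n
  rw [inner_star_right, ← inner_conj_symm, RCLike.norm_conj]

lemma hsn_star (f : HilbertBasis ι ℂ H) (x : H →L[ℂ] H) : hsn f (star x) = hsn f x :=
  hsn_star_eq f f x

lemma hsn_eq (f : HilbertBasis ι ℂ H) (g : HilbertBasis κ ℂ H) (x : H →L[ℂ] H) :
    hsn f x = hsn g x := by
  rw [← hsn_star f x]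
  exact hsn_star_eq f g x

lemma norm_sq_le_hsn (f : HilbertBasis ι ℂ H) (x : H →L[ℂ] H) (v : H) :
    ENNReal.ofReal (‖x v‖ ^ 2) ≤ hsn f x * ENNReal.ofReal (‖v‖ ^ 2) := by
  rw [← hsn_star f x, ← parseval f (x v)]
  unfold hsn
  rw [← ENNReal.tsum_mul_right]
  apply ENNReal.tsum_le_tsum
  intro i
  rw [← ENNReal.ofReal_mul (by positivity)]
  apply ENNReal.ofReal_le_ofReal
  rw [← mul_pow]
  have : ‖⟪f i, x v⟫_ℂ‖ ≤ ‖(star x) (f i)‖ * ‖v‖ := by
    rw [← inner_star_left]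
    exact norm_inner_le_norm _ _
  gcongr

lemma norm_sq_opNorm_le_hsn (f : HilbertBasis ι ℂ H) (x : H →L[ℂ] H) :
    ENNReal.ofReal (‖x‖ ^ 2) ≤ hsn f x := by
  by_cases h : hsn f x = ⊤
  · rw [h]; exact le_top
  · set K := (hsn f x).toReal with hK
    have hK0 : 0 ≤ K := ENNReal.toReal_nonneg
    have hKe : hsn f x = ENNReal.ofReal K := (ENNReal.ofReal_toReal h).symm
    have h1 : ‖x‖ ≤ Real.sqrt K := by
      apply ContinuousLinearMap.opNorm_le_bound _ (Real.sqrt_nonneg _)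
      intro v
      have h2 := norm_sq_le_hsn f x v
      rw [hKe, ← ENNReal.ofReal_mul hK0, ENNReal.ofReal_le_ofReal_iff (by positivity)] at h2
      have h3 : ‖x v‖ ^ 2 ≤ (Real.sqrt K * ‖v‖) ^ 2 := by
        rw [mul_pow, Real.sq_sqrt hK0]; exact h2
      exact (sq_le_sq₀ (norm_nonneg _) (by positivity)).mp h3
    rw [hKe]
    apply ENNReal.ofReal_le_ofReal
    calc ‖x‖ ^ 2 ≤ Real.sqrt K ^ 2 := by gcongr
      _ = K := Real.sq_sqrt hK0

lemma inner_nonneg {A : H →L[ℂ] H} (hA : 0 ≤ A) (v : H) : 0 ≤ (⟪v, A v⟫_ℂ).re := by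
  have := (ContinuousLinearMap.nonneg_iff_isPositive A).mp hA
  exact this.re_inner_nonneg_right v

lemma inner_mono {A B : H →L[ℂ] H} (h : A ≤ B) (v : H) : (⟪v, A v⟫_ℂ).re ≤ (⟪v, B v⟫_ℂ).re := by
  have h1 := inner_nonneg (sub_nonneg.mpr h) v
  rw [ContinuousLinearMap.sub_apply, inner_sub_right, Complex.sub_re] at h1
  linarith

lemma star_of_nonneg {A : H →L[ℂ] H} (hA : 0 ≤ A) : star A = A :=
  (IsSelfAdjoint.of_nonneg hA).star_eq

lemma nonneg_of_inner {A : H →L[ℂ] H} (hs : star A = A) (h : ∀ v, 0 ≤ (⟪v, A v⟫_ℂ).re) :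
    0 ≤ A := by
  rw [ContinuousLinearMap.nonneg_iff_isPositive, ContinuousLinearMap.isPositive_iff_complex]
  intro v
  have h1 : (starRingEnd ℂ) ⟪A v, v⟫_ℂ = ⟪A v, v⟫_ℂ := by
    rw [inner_conj_symm, ← inner_star_left, hs]
  have h2 : ((⟪A v, v⟫_ℂ).re : ℂ) = ⟪A v, v⟫_ℂ := Complex.conj_eq_iff_re.mp h1
  refine ⟨h2, ?_⟩
  have h3 : (⟪A v, v⟫_ℂ).re = (⟪v, A v⟫_ℂ).re := inner_re_symm (𝕜 := ℂ) _ _
  change 0 ≤ (⟪A v, v⟫_ℂ).re
  rw [h3]
  exact h v

lemma normsq_apply {A : H →L[ℂ] H} (x : H →L[ℂ] H) (v : H) (h : star x * x = A) :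
    ‖x v‖ ^ 2 = (⟪v, A v⟫_ℂ).re := by
  rw [normsq_eq, ← h, ContinuousLinearMap.mul_apply, inner_star_right]

lemma tr_star_mul (f : HilbertBasis ι ℂ H) (x : H →L[ℂ] H) : tr f (star x * x) = hsn f x := by
  unfold tr hsn
  congr 1
  ext i
  rw [normsq_apply x (f i) rfl]

lemma sqrt_star_mul {A : H →L[ℂ] H} (hA : 0 ≤ A) :
    star (CFC.sqrt A) * CFC.sqrt A = A := by
  rw [star_of_nonneg (CFC.sqrt_nonneg A)]
  exact CFC.sqrt_mul_sqrt_self A hA

lemma tr_eq_hsn_sqrt (f : HilbertBasis ι ℂ H) {A : H →L[ℂ] H} (hA : 0 ≤ A) :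
    tr f A = hsn f (CFC.sqrt A) := by
  rw [← tr_star_mul, sqrt_star_mul hA]

lemma tr_eq (f : HilbertBasis ι ℂ H) (g : HilbertBasis κ ℂ H) {A : H →L[ℂ] H} (hA : 0 ≤ A) :
    tr f A = tr g A := by
  rw [tr_eq_hsn_sqrt f hA, tr_eq_hsn_sqrt g hA]
  exact hsn_eq f g _

lemma tr_comm (f : HilbertBasis ι ℂ H) (x : H →L[ℂ] H) :
    tr f (star x * x) = tr f (x * star x) := by
  have h := tr_star_mul f (star x)
  rw [star_star] at h
  rw [tr_star_mul, h, hsn_star]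

lemma tr_add (f : HilbertBasis ι ℂ H) {A B : H →L[ℂ] H} (hA : 0 ≤ A) (hB : 0 ≤ B) :
    tr f (A + B) = tr f A + tr f B := by
  unfold tr
  rw [← ENNReal.tsum_add]
  congr 1
  ext i
  rw [ContinuousLinearMap.add_apply, inner_add_right, Complex.add_re,
    ENNReal.ofReal_add (inner_nonneg hA _) (inner_nonneg hB _)]

lemma tr_mono (f : HilbertBasis ι ℂ H) {A B : H →L[ℂ] H} (h : A ≤ B) : tr f A ≤ tr f B :=
  ENNReal.tsum_le_tsum fun _ => ENNReal.ofReal_le_ofReal (inner_mono h _)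

lemma ext_basis (f : HilbertBasis ι ℂ H) {x y : H →L[ℂ] H} (h : ∀ i, x (f i) = y (f i)) :
    x = y := by
  have hd : Dense (Submodule.span ℂ (Set.range f) : Set H) :=
    Submodule.dense_iff_topologicalClosure_eq_top.mpr f.dense_span
  refine ContinuousLinearMap.ext_on hd ?_
  rintro _ ⟨n, rfl⟩
  exact h n

lemma hsn_eq_zero (f : HilbertBasis ι ℂ H) {x : H →L[ℂ] H} (h : hsn f x = 0) : x = 0 := by
  unfold hsn at h
  rw [ENNReal.tsum_eq_zero] at h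
  apply ext_basis f
  intro i
  have := h i
  rw [ENNReal.ofReal_eq_zero] at this
  have h2 : ‖x (f i)‖ ^ 2 = 0 := le_antisymm this (by positivity)
  simpa using h2

lemma tr_eq_zero (f : HilbertBasis ι ℂ H) {A : H →L[ℂ] H} (hA : 0 ≤ A) (h : tr f A = 0) :
    A = 0 := by
  rw [tr_eq_hsn_sqrt f hA] at h
  have := hsn_eq_zero f h
  rw [← sqrt_star_mul hA, this, mul_zero]

lemma eq_of_tr_eq (f : HilbertBasis ι ℂ H) {A B : H →L[ℂ] H} (hA : 0 ≤ A) (h : A ≤ B)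
    (ht : tr f B ≤ tr f A) (hfin : tr f A ≠ ⊤) : A = B := by
  have h1 : B = A + (B - A) := by abel
  have h2 : 0 ≤ B - A := sub_nonneg.mpr h
  have h3 : tr f B = tr f A + tr f (B - A) := by
    conv_lhs => rw [h1]
    exact tr_add f hA h2
  have h4 : tr f (B - A) = 0 := by
    rw [h3] at ht
    have : tr f A + tr f (B - A) ≤ tr f A + 0 := by rw [add_zero]; exact ht
    exact le_antisymm ((ENNReal.add_le_add_iff_left hfin).mp this) zero_le
  have h5 := tr_eq_zero f h2 h4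
  exact (sub_eq_zero.mp h5).symm

/-- Bessel inequality for traces. -/
lemma sum_orthonormal_le_tr (f : HilbertBasis ι ℂ H) {A : H →L[ℂ] H} (hA : 0 ≤ A) {g : κ → H}
    (hg : Orthonormal ℂ g) : ∑' k, ENNReal.ofReal (⟪g k, A (g k)⟫_ℂ).re ≤ tr f A := by
  obtain ⟨w, b, hgw, hb⟩ := hg.toSubtypeRange.exists_hilbertBasis_extension
  rw [tr_eq f b hA]
  unfold tr
  rw [hb]
  have hinj : Function.Injective (fun k => (⟨g k, hgw (Set.mem_range_self k)⟩ : w)) := by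
    intro k l hkl
    exact hg.linearIndependent.injective (Subtype.mk.inj hkl)
  exact ENNReal.tsum_comp_le_tsum_of_injective hinj
    (fun x : w => ENNReal.ofReal (⟪(x : H), A (x : H)⟫_ℂ).re)

end Pool.Agent.H44.Sch
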