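import Pool.Agent.H44.Sch.McC

/-!
Clarkson inequalities for Schatten sums, the case of equality, orthogonality.
-/

set_option autoImplicit false
open scoped NNReal ENNReal InnerProductSpace
open ContinuousLinearMap Filter Topology

namespace Pool.Agent.H44.Sch
set_option linter.unusedSectionVars false
set_option linter.deprecated false

open Pool.Agent.H53 (inner_star_left inner_star_right normsq_eq)

universe u
variable {H : Type u} [NormedAddCommGroup H] [InnerProductSpace ℂ H] [CompleteSpace H]
variable {ι κ : Type*}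

/-- Schatten sum: trace of `|x|^p`. -/
noncomputable def Qp (b : HilbertBasis ι ℂ H) (p : ℝ) (x : H →L[ℂ] H) : ℝ≥0∞ :=
  tr b (pw (p / 2) (star x * x))

lemma pw_smul {r k : ℝ} (hr : 0 ≤ r) (hk : 0 ≤ k) {A : H →L[ℂ] H} (hA : 0 ≤ A) :
    pw r (k • A) = k ^ r • pw r A := by
  have hs := IsSelfAdjoint.of_nonneg hA
  have h1 : k • A = cfc (fun t : ℝ => k * t) A := by
    rw [cfc_const_mul k (fun t => t) A continuous_id'.continuousOn, cfc_id' ℝ A hs]
  unfold pw
  rw [h1, ← cfc_comp' (fun t : ℝ => t ^ r) (fun t : ℝ => k * t) A (cont_pw hr).continuousOn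
    (continuous_const.mul continuous_id').continuousOn hs,
    ← cfc_const_mul (k ^ r) (fun t : ℝ => t ^ r) A (cont_pw hr).continuousOn]
  apply cfc_congr
  intro t ht
  exact Real.mul_rpow hk (spec_nonneg hA ht)

lemma pw_zero {r : ℝ} (hr : 0 < r) : pw r (0 : H →L[ℂ] H) = 0 := by
  have h := pw_smul (r := r) hr.le (le_refl (0 : ℝ)) (A := (0 : H →L[ℂ] H)) le_rfl
  rw [zero_smul, Real.zero_rpow hr.ne', zero_smul] at h
  exact h

lemma Qp_eq_zero (b : HilbertBasis ι ℂ H) {p : ℝ} (hp : 0 < p) {x : H →L[ℂ] H}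
    (h : Qp b p x = 0) : x = 0 := by
  have h0 := star_mul_self_nonneg x
  have h1 := tr_eq_zero b (pw_nonneg _ h0) h
  have h2 : star x * x = 0 := by
    apply pw_inj (r := p / 2) (by positivity) h0 le_rfl
    rw [h1, pw_zero (by positivity)]
  exact (CStarRing.star_mul_self_eq_zero_iff x).mp h2

lemma Qp_star (b : HilbertBasis ι ℂ H) {p : ℝ} (hp : 0 < p) (x : H →L[ℂ] H) :
    Qp b p (star x) = Qp b p x := by
  unfold Qp
  rw [star_star, tr_pw_star b (by positivity)]

lemma Qp_congr (b : HilbertBasis ι ℂ H) (p : ℝ) {x y : H →L[ℂ] H}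
    (h : star x * x = star y * y) : Qp b p x = Qp b p y := by
  unfold Qp
  rw [h]

lemma tr_smul (b : HilbertBasis ι ℂ H) {k : ℝ} (hk : 0 ≤ k) (A : H →L[ℂ] H) :
    tr b (k • A) = ENNReal.ofReal k * tr b A := by
  unfold tr
  rw [← ENNReal.tsum_mul_left]
  congr 1
  ext i
  rw [ContinuousLinearMap.smul_apply, ← Complex.coe_smul, inner_smul_right, Complex.re_ofReal_mul,
    ENNReal.ofReal_mul hk]

lemma Qp_smul (b : HilbertBasis ι ℂ H) {p : ℝ} (hp : 0 < p) (c : ℂ) (x : H →L[ℂ] H) :
    Qp b p (c • x) = ENNReal.ofReal (‖c‖ ^ p) * Qp b p x := by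
  unfold Qp
  have h1 : star (c • x) * (c • x) = (‖c‖ ^ 2 : ℝ) • (star x * x) := by
    rw [star_smul, smul_mul_assoc, mul_smul_comm, smul_smul, ← Complex.coe_smul]
    congr 1
    rw [Complex.ofReal_pow, ← Complex.conj_mul']
    rfl
  rw [h1, pw_smul (by positivity) (by positivity) (star_mul_self_nonneg x),
    tr_smul b (by positivity)]
  congr 2
  rw [← Real.rpow_natCast, ← Real.rpow_mul (norm_nonneg _)]
  congr 1
  push_cast
  ring

lemma Qp_neg (b : HilbertBasis ι ℂ H) (p : ℝ) (x : H →L[ℂ] H) : Qp b p (-x) = Qp b p x :=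
  Qp_congr b p (by rw [star_neg, neg_mul_neg])

lemma Qp_I (b : HilbertBasis ι ℂ H) (p : ℝ) (x : H →L[ℂ] H) : Qp b p (Complex.I • x) = Qp b p x := by
  apply Qp_congr
  rw [star_smul, smul_mul_assoc, mul_smul_comm, smul_smul]
  have : star Complex.I * Complex.I = 1 := by
    rw [Complex.star_def, Complex.conj_I]
    simp
  rw [this, one_smul]

/-- an operator is compact when `x* x` is -/
lemma compact_of_star_mul {x : H →L[ℂ] H} (h : IsCompactOperator (star x * x : H →L[ℂ] H)) :
    IsCompactOperator x := by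
  apply compact_of_approx
  intro η hη
  set A := star x * x with hA
  have hA0 : 0 ≤ A := star_mul_self_nonneg x
  have hAs : IsSelfAdjoint A := IsSelfAdjoint.of_nonneg hA0
  set ε := η ^ 2 with hε
  have hε0 : 0 < ε := by positivity
  have hden : ∀ t : ℝ, |t| + ε ≠ 0 := fun t => by positivity
  have hg : Continuous (fun t : ℝ => t / (|t| + ε)) :=
    continuous_id'.div (continuous_abs.add continuous_const) hden
  have hh : Continuous (fun t : ℝ => 1 - t / (|t| + ε)) := continuous_const.sub hg
  refine ⟨x * cfc (fun t : ℝ => t / (|t| + ε)) A,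
    compact_mul_left (compact_cfc hAs h hg (by simp)) x, ?_⟩
  set y := x * cfc (fun t : ℝ => 1 - t / (|t| + ε)) A with hy
  have e1 : x - x * cfc (fun t : ℝ => t / (|t| + ε)) A = y := by
    rw [hy, cfc_sub (a := A) (fun _ => (1 : ℝ)) (fun t : ℝ => t / (|t| + ε))
      continuous_const.continuousOn hg.continuousOn, cfc_const (1 : ℝ) A hAs, map_one, mul_sub,
      mul_one]
  rw [e1]
  have e2 : star y * y = cfc (fun t : ℝ => (1 - t / (|t| + ε)) * t * (1 - t / (|t| + ε))) A := by
    rw [hy, star_mul, star_cfc, ← cfc_mul3 A hh continuous_id' hh, cfc_id' ℝ A hAs]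
    simp only [hA]
    noncomm_ring
  have h1 : ‖star y * y‖ ≤ ε := by
    rw [e2]
    apply norm_cfc_le hε0.le
    intro t ht
    have ht0 := spec_nonneg hA0 ht
    rw [abs_of_nonneg ht0]
    have hpos : 0 < t + ε := by positivity
    have h2 : 1 - t / (t + ε) = ε / (t + ε) := by field_simp; ring
    rw [h2, Real.norm_eq_abs, abs_of_nonneg (by positivity)]
    have h3 : ε / (t + ε) * t * (ε / (t + ε)) = ε * (ε * t / (t + ε) ^ 2) := by
      field_simp
    rw [h3]
    have h4 : ε * t / (t + ε) ^ 2 ≤ 1 := by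
      rw [div_le_one (by positivity)]
      nlinarith [mul_nonneg ht0 hε0.le]
    nlinarith
  rw [CStarRing.norm_star_mul_self] at h1
  have h5 : ‖y‖ ^ 2 ≤ η ^ 2 := by rw [sq]; exact h1
  exact (sq_le_sq₀ (norm_nonneg _) hη.le).mp h5

lemma compact_of_Qp (b : HilbertBasis ι ℂ H) {p : ℝ} (hp : 0 < p) {x : H →L[ℂ] H}
    (h : Qp b p x ≠ ⊤) : IsCompactOperator x :=
  compact_of_star_mul (compact_of_tr_pw b (by positivity) (star_mul_self_nonneg x) h)

lemma compact_star_mul {x : H →L[ℂ] H} (h : IsCompactOperator x) :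
    IsCompactOperator (star x * x : H →L[ℂ] H) := compact_mul_left h _

lemma compact_add {x y : H →L[ℂ] H} (hx : IsCompactOperator x) (hy : IsCompactOperator y) :
    IsCompactOperator (x + y : H →L[ℂ] H) := hx.add hy

lemma compact_smul {x : H →L[ℂ] H} (hx : IsCompactOperator x) (c : ℂ) :
    IsCompactOperator (c • x : H →L[ℂ] H) := hx.smul c

lemma par (x y : H →L[ℂ] H) : star (x + y) * (x + y) + star (x - y) * (x - y) =
    (star x * x + star y * y) + (star x * x + star y * y) := by
  rw [star_add, star_sub]; noncomm_ring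

/-- Clarkson inequality above two. -/
lemma clark_gt (b : HilbertBasis ι ℂ H) {p : ℝ} (hp : 2 < p) {x y : H →L[ℂ] H}
    (hx : IsCompactOperator x) (hy : IsCompactOperator y) :
    (Qp b p x + Qp b p y) + (Qp b p x + Qp b p y) ≤ Qp b p (x + y) + Qp b p (x - y) := by
  have hC := star_mul_self_nonneg x
  have hD := star_mul_self_nonneg y
  have h1 := mcc_gt b (s := p / 2) (by linarith) hC hD (compact_star_mul hx) (compact_star_mul hy)
  have h2 := (trace_jensen_gt b (s := p / 2) (by linarith) (star_mul_self_nonneg (x + y))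
    (star_mul_self_nonneg (x - y)) (add_nonneg hC hD) (par x y)
    (compact_add (compact_star_mul hx) (compact_star_mul hy))).1
  exact (add_le_add h1 h1).trans h2

/-- Clarkson inequality below two. -/
lemma clark_lt (b : HilbertBasis ι ℂ H) {p : ℝ} (hp0 : 0 < p) (hp : p < 2) {x y : H →L[ℂ] H}
    (hx : IsCompactOperator x) (hy : IsCompactOperator y) :
    Qp b p (x + y) + Qp b p (x - y) ≤ (Qp b p x + Qp b p y) + (Qp b p x + Qp b p y) := by
  have hC := star_mul_self_nonneg x
  have hD := star_mul_self_nonneg y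
  have h1 := mcc_lt b (s := p / 2) (by positivity) (by linarith) hC hD
  have h2 := (trace_jensen_lt b (s := p / 2) (by positivity) (by linarith)
    (star_mul_self_nonneg (x + y))
    (star_mul_self_nonneg (x - y)) (add_nonneg hC hD) (par x y)
    (compact_add (compact_star_mul hx) (compact_star_mul hy))).1
  exact h2.trans (add_le_add h1 h1)

/-- The case of equality. -/
lemma clark_eq (b : HilbertBasis ι ℂ H) {p : ℝ} (hp0 : 0 < p) (hp : p ≠ 2) {x y : H →L[ℂ] H}
    (hx : Qp b p x ≠ ⊤) (hy : Qp b p y ≠ ⊤)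
    (h : Qp b p (x + y) + Qp b p (x - y) = (Qp b p x + Qp b p y) + (Qp b p x + Qp b p y)) :
    star x * y + star y * x = 0 := by
  have hC := star_mul_self_nonneg x
  have hD := star_mul_self_nonneg y
  have hxc := compact_of_Qp b hp0 hx
  have hyc := compact_of_Qp b hp0 hy
  have hfin : (Qp b p x + Qp b p y) + (Qp b p x + Qp b p y) ≠ ⊤ :=
    ENNReal.add_ne_top.mpr ⟨ENNReal.add_ne_top.mpr ⟨hx, hy⟩, ENNReal.add_ne_top.mpr ⟨hx, hy⟩⟩
  have hAB : star (x + y) * (x + y) = star (x - y) * (x - y) := by
    rcases lt_or_gt_of_ne hp with hlt | hgt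
    · have h1 := mcc_lt b (s := p / 2) (by positivity) (by linarith) hC hD
      have h2 := (trace_jensen_lt b (s := p / 2) (by positivity) (by linarith)
        (star_mul_self_nonneg (x + y))
        (star_mul_self_nonneg (x - y)) (add_nonneg hC hD) (par x y)
        (compact_add (compact_star_mul hxc) (compact_star_mul hyc))).2
      apply h2
      · exact (add_le_add h1 h1).trans h.symm.le
      · exact ne_top_of_le_ne_top (ENNReal.add_ne_top.mpr ⟨hx, hy⟩) h1
    · have h1 := mcc_gt b (s := p / 2) (by linarith) hC hD (compact_star_mul hxc)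
        (compact_star_mul hyc)
      have h2 := (trace_jensen_gt b (s := p / 2) (by linarith) (star_mul_self_nonneg (x + y))
        (star_mul_self_nonneg (x - y)) (add_nonneg hC hD) (par x y)
        (compact_add (compact_star_mul hxc) (compact_star_mul hyc)))
      apply h2.2
      · exact h.le.trans (add_le_add h1 h1)
      · have h3 : tr b (pw (p / 2) (star x * x + star y * y)) +
            tr b (pw (p / 2) (star x * x + star y * y)) ≠ ⊤ := by
          refine ne_top_of_le_ne_top ?_ h2.1
          change Qp b p (x + y) + Qp b p (x - y) ≠ ⊤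
          rw [h]
          exact hfin
        exact (ENNReal.add_ne_top.mp h3).1
  have h4 : (2 : ℂ) • (star x * y + star y * x) = 0 := by
    have : (2 : ℂ) • (star x * y + star y * x) =
        star (x + y) * (x + y) - star (x - y) * (x - y) := by
      rw [star_add, star_sub, two_smul]; noncomm_ring
    rw [this, hAB, sub_self]
  rcases smul_eq_zero.mp h4 with h5 | h5
  · norm_num at h5
  · exact h5

/-- Orthogonality from the two equalities. -/
lemma orth_of_eq (b : HilbertBasis ι ℂ H) {p : ℝ} (hp0 : 0 < p) (hp : p ≠ 2) {x y : H →L[ℂ] H}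
    (hx : Qp b p x ≠ ⊤) (hy : Qp b p y ≠ ⊤)
    (h : Qp b p (x + y) + Qp b p (x - y) = (Qp b p x + Qp b p y) + (Qp b p x + Qp b p y))
    (hI : Qp b p (x + Complex.I • y) + Qp b p (x - Complex.I • y) =
      (Qp b p x + Qp b p y) + (Qp b p x + Qp b p y)) :
    star x * y = 0 ∧ x * star y = 0 := by
  have aux : ∀ {x y : H →L[ℂ] H}, Qp b p x ≠ ⊤ → Qp b p y ≠ ⊤ →
      Qp b p (x + y) + Qp b p (x - y) = (Qp b p x + Qp b p y) + (Qp b p x + Qp b p y) →
      Qp b p (x + Complex.I • y) + Qp b p (x - Complex.I • y) =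
        (Qp b p x + Qp b p y) + (Qp b p x + Qp b p y) → star x * y = 0 := by
    intro x y hx hy h hI
    have h1 := clark_eq b hp0 hp hx hy h
    have h2 := clark_eq b hp0 hp hx (y := Complex.I • y) (by rwa [Qp_I]) (by rwa [Qp_I])
    have h3 : star x * (Complex.I • y) + star (Complex.I • y) * x =
        Complex.I • (star x * y - star y * x) := by
      rw [star_smul, Complex.star_def, Complex.conj_I, mul_smul_comm, smul_mul_assoc, neg_smul,
        smul_sub, sub_eq_add_neg]
    rw [h3] at h2
    have h4 : star x * y - star y * x = 0 := by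
      rcases smul_eq_zero.mp h2 with h5 | h5
      · exact absurd h5 Complex.I_ne_zero
      · exact h5
    have h5 : (2 : ℂ) • (star x * y) = 0 := by
      have : (2 : ℂ) • (star x * y) = (star x * y + star y * x) + (star x * y - star y * x) := by
        rw [two_smul]; abel
      rw [this, h1, h4, add_zero]
    rcases smul_eq_zero.mp h5 with h6 | h6
    · norm_num at h6
    · exact h6
  refine ⟨aux hx hy h hI, ?_⟩
  have e1 : ∀ z : H →L[ℂ] H, Qp b p (star z) = Qp b p z := fun z => Qp_star b hp0 z
  have h2 := aux (x := star x) (y := star y) (by rwa [e1]) (by rwa [e1])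
    (by rw [← star_add, ← star_sub, e1, e1, e1, e1]; exact h)
    (by
      have e2 : star x + Complex.I • star y = star (x - Complex.I • y) := by
        rw [star_sub, star_smul, Complex.star_def, Complex.conj_I, neg_smul, sub_neg_eq_add]
      have e3 : star x - Complex.I • star y = star (x + Complex.I • y) := by
        rw [star_add, star_smul, Complex.star_def, Complex.conj_I, neg_smul, sub_eq_add_neg]
      rw [e2, e3, e1, e1, e1, e1, add_comm]
      exact hI)
  rwa [star_star] at h2

/-- quasi-triangle inequality -/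
lemma Qp_add_le (b : HilbertBasis ι ℂ H) {p : ℝ} (hp1 : 1 < p) (hp : p ≠ 2) (x y : H →L[ℂ] H) :
    Qp b p (x + y) ≤ ENNReal.ofReal (2 ^ p) * (Qp b p x + Qp b p y) := by
  have hp0 : 0 < p := by linarith
  by_cases hfin : Qp b p x + Qp b p y = ⊤
  · rw [hfin, ENNReal.mul_top]
    · exact le_top
    · exact (ENNReal.ofReal_pos.mpr (by positivity)).ne'
  have hx : Qp b p x ≠ ⊤ := (ENNReal.add_ne_top.mp hfin).1
  have hy : Qp b p y ≠ ⊤ := (ENNReal.add_ne_top.mp hfin).2
  have hxc := compact_of_Qp b hp0 hx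
  have hyc := compact_of_Qp b hp0 hy
  rcases lt_or_gt_of_ne hp with hlt | hgt
  · have h1 := clark_lt b hp0 hlt hxc hyc
    have h2 : (1 : ℝ) + 1 ≤ 2 ^ p := by
      calc (1 : ℝ) + 1 = 2 ^ (1 : ℝ) := by norm_num
        _ ≤ 2 ^ p := Real.rpow_le_rpow_of_exponent_le (by norm_num) hp1.le
    calc Qp b p (x + y) ≤ Qp b p (x + y) + Qp b p (x - y) := le_self_add
      _ ≤ (Qp b p x + Qp b p y) + (Qp b p x + Qp b p y) := h1
      _ = ENNReal.ofReal (1 + 1) * (Qp b p x + Qp b p y) := by
          rw [ENNReal.ofReal_add (by norm_num) (by norm_num), ENNReal.ofReal_one, add_mul, one_mul]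
      _ ≤ ENNReal.ofReal (2 ^ p) * (Qp b p x + Qp b p y) := by gcongr
  · set u := (2⁻¹ : ℂ) • (x + y) with hu
    set v := (2⁻¹ : ℂ) • (x - y) with hv
    have huc : IsCompactOperator u := compact_smul (compact_add hxc hyc) _
    have hvc : IsCompactOperator v := by
      have : v = (2⁻¹ : ℂ) • (x + (-1 : ℂ) • y) := by
        rw [hv, neg_smul, one_smul, sub_eq_add_neg]
      rw [this]
      exact compact_smul (compact_add hxc (compact_smul hyc _)) _
    have h1 := clark_gt b hgt huc hvc
    have e1 : u + v = x := by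
      rw [hu, hv, ← smul_add, add_add_sub_cancel, ← two_smul ℂ x, smul_smul]
      norm_num
    have e2 : u - v = y := by
      rw [hu, hv, ← smul_sub, add_sub_sub_cancel, ← two_smul ℂ y, smul_smul]
      norm_num
    rw [e1, e2] at h1
    have h2 : Qp b p u ≤ Qp b p x + Qp b p y := by
      refine le_trans ?_ h1
      calc Qp b p u ≤ Qp b p u + Qp b p v := le_self_add
        _ ≤ _ := le_self_add
    have e3 : x + y = (2 : ℂ) • u := by
      rw [hu, smul_smul]; norm_num
    rw [e3, Qp_smul b hp0]
    have e4 : ‖(2 : ℂ)‖ = 2 := by simp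
    rw [e4]
    gcongr

end Pool.Agent.H44.Sch
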