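import Pool.Agent.H44.Sch.Strict

/-!
Relative compactness of the family of orthogonal summands of a fixed operator.
-/

set_option autoImplicit false
open scoped NNReal ENNReal InnerProductSpace
open ContinuousLinearMap Filter Topology

namespace Pool.Agent.H44.Sch
set_option linter.unusedSectionVars false
set_option linter.deprecated false

open Pool.Agent.H53 (inner_star_left inner_star_right normsq_eq norm_le_of_orth)

universe u
variable {H : Type u} [NormedAddCommGroup H] [InnerProductSpace ℂ H] [CompleteSpace H]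
variable {ι κ : Type*}

/-- rank one operator -/
noncomputable def rk (v w : H) : H →L[ℂ] H := (innerSL ℂ v).smulRight w

lemma rk_apply (v w z : H) : rk v w z = ⟪v, z⟫_ℂ • w := by simp [rk]

lemma star_rk (v w : H) : star (rk v w) = rk w v := by
  ext z
  refine ext_inner_right ℂ fun y => ?_
  rw [inner_star_left, rk_apply, rk_apply, inner_smul_right, inner_smul_left, inner_conj_symm,
    mul_comm]

lemma Qp_rk [DecidableEq ι] (b : HilbertBasis κ ℂ H) (f : HilbertBasis ι ℂ H) {p : ℝ}
    (hp : 0 < p) (i : ι) (w : H) : Qp b p (rk (f i) w) = ENNReal.ofReal (‖w‖ ^ p) := by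
  unfold Qp
  have h0 := star_mul_self_nonneg (rk (f i) w)
  rw [tr_eq b f (pw_nonneg _ h0)]
  have h1 : ∀ j, (star (rk (f i) w) * rk (f i) w) (f j) =
      (((if j = i then ‖w‖ ^ 2 else 0 : ℝ)) : ℂ) • f j := by
    intro j
    rw [ContinuousLinearMap.mul_apply, star_rk, rk_apply, rk_apply, inner_smul_right,
      orthonormal_iff_ite.mp f.orthonormal i j]
    by_cases h : j = i
    · rw [if_pos h.symm, if_pos h, h, one_mul, inner_self_eq_norm_sq_to_K]
      push_cast
      rfl
    · rw [if_neg (fun h' => h h'.symm), if_neg h]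
      simp
  rw [tr_pw_eigen f (by positivity) h0 h1, tsum_eq_single i]
  · rw [if_pos rfl, ← Real.rpow_natCast, ← Real.rpow_mul (norm_nonneg _)]
    congr 2
    push_cast
    ring
  · intro j hj
    rw [if_neg hj, Real.zero_rpow (by positivity), ENNReal.ofReal_zero]

lemma Qp_sub_le (b : HilbertBasis ι ℂ H) {p : ℝ} (hp1 : 1 < p) (hp : p ≠ 2) (x y : H →L[ℂ] H) :
    Qp b p (x - y) ≤ ENNReal.ofReal (2 ^ p) * (Qp b p x + Qp b p y) := by
  rw [sub_eq_add_neg, ← Qp_neg b p y]
  exact Qp_add_le b hp1 hp x (-y)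

lemma Qp_zero (b : HilbertBasis ι ℂ H) {p : ℝ} (hp0 : 0 < p) : Qp b p (0 : H →L[ℂ] H) = 0 := by
  unfold Qp
  rw [mul_zero, pw_zero (by positivity)]
  unfold tr
  simp

lemma Qp_sum_le (b : HilbertBasis ι ℂ H) {p : ℝ} (hp1 : 1 < p) (hp : p ≠ 2) (s : Finset κ)
    (R : κ → H →L[ℂ] H) :
    Qp b p (∑ k ∈ s, R k) ≤ ENNReal.ofReal ((2 ^ p) ^ s.card) * ∑ k ∈ s, Qp b p (R k) := by
  classical
  have hC : (1 : ℝ) ≤ 2 ^ p := Real.one_le_rpow (by norm_num) (by linarith)
  induction s using Finset.induction_on with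
  | empty => simp [Qp_zero b (by linarith : 0 < p)]
  | insert a s ha ih =>
    rw [Finset.sum_insert ha, Finset.sum_insert ha, Finset.card_insert_of_notMem ha]
    refine (Qp_add_le b hp1 hp _ _).trans ?_
    have h1 : (1 : ℝ) ≤ (2 ^ p) ^ s.card := one_le_pow₀ hC
    calc ENNReal.ofReal (2 ^ p) * (Qp b p (R a) + Qp b p (∑ k ∈ s, R k))
        ≤ ENNReal.ofReal (2 ^ p) * (ENNReal.ofReal ((2 ^ p) ^ s.card) * Qp b p (R a) +
          ENNReal.ofReal ((2 ^ p) ^ s.card) * ∑ k ∈ s, Qp b p (R k)) := by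
          gcongr
          have : (1 : ℝ≥0∞) ≤ ENNReal.ofReal ((2 ^ p) ^ s.card) := by
            rw [← ENNReal.ofReal_one]
            exact ENNReal.ofReal_le_ofReal h1
          calc Qp b p (R a) = 1 * Qp b p (R a) := (one_mul _).symm
            _ ≤ _ := by gcongr
      _ = ENNReal.ofReal ((2 ^ p) ^ (s.card + 1)) * (Qp b p (R a) + ∑ k ∈ s, Qp b p (R k)) := by
          rw [← mul_add, ← mul_assoc, ← ENNReal.ofReal_mul (by positivity), pow_succ']

lemma cut_eq_sum_rk (f : HilbertBasis ι ℂ H) (s : Finset ι) (x : H →L[ℂ] H) :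
    cut f s x = ∑ i ∈ s, rk (f i) (x (f i)) := rfl

/-- monotonicity of the trace of a power -/
lemma tr_pw_mono (b : HilbertBasis ι ℂ H) {r : ℝ} (hr0 : 0 < r) (hr : r ≠ 1) {X Y : H →L[ℂ] H}
    (hX : 0 ≤ X) (h : X ≤ Y) (hXc : IsCompactOperator X)
    (hYc : IsCompactOperator (Y - X : H →L[ℂ] H)) : tr b (pw r X) ≤ tr b (pw r Y) := by
  rcases lt_or_gt_of_ne hr with hlt | hgt
  · exact tr_mono b (pw_mono hr0.le hlt.le hX h)
  · have h1 := mcc_gt b hgt hX (sub_nonneg.mpr h) hXc hYc
    rw [add_sub_cancel] at h1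
    exact le_self_add.trans h1

/-- tail bound -/
lemma tail_bound [DecidableEq ι] (b : HilbertBasis κ ℂ H) (f : HilbertBasis ι ℂ H) {p : ℝ}
    (hp0 : 0 < p) (hp : p ≠ 2) {A B D : H →L[ℂ] H} (hAB : A + B = D) (h2 : star A * B = 0)
    (hAc : IsCompactOperator A) (hBc : IsCompactOperator B) {δ : ι → ℝ}
    (hf : ∀ i, (star D * D) (f i) = (δ i : ℂ) • f i) (s : Finset ι) :
    Qp b p (A - cut f s A) ≤ ∑' i : {i // i ∉ s}, ENNReal.ofReal (δ i ^ (p / 2)) := by
  have h2' : star B * A = 0 := by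
    have := congrArg star h2
    rwa [star_mul, star_star, star_zero] at this
  set q : H →L[ℂ] H := 1 - cut f s 1 with hq
  have hqf : ∀ j, q (f j) = if j ∈ s then 0 else f j := by
    intro j
    rw [hq, ContinuousLinearMap.sub_apply, cut_apply]
    split_ifs <;> simp
  have hxq : ∀ x : H →L[ℂ] H, x - cut f s x = x * q := by
    intro x
    apply ext_basis f
    intro j
    rw [ContinuousLinearMap.sub_apply, cut_apply, ContinuousLinearMap.mul_apply, hqf]
    split_ifs <;> simp
  have hqs : star q = q := by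
    rw [hq, star_sub, star_one, cut_eq_sum_rk, star_sum]
    congr 1
    apply Finset.sum_congr rfl
    intro i _
    rw [star_rk]
    rfl
  rw [hxq]
  have hZ : ∀ x : H →L[ℂ] H, star (x * q) * (x * q) = q * (star x * x) * q := by
    intro x
    rw [star_mul, hqs]; noncomm_ring
  have hDD : star D * D = star A * A + star B * B := by
    rw [← hAB, star_add, add_mul, mul_add, mul_add, h2, h2']
    simp
  have hle : q * (star A * A) * q ≤ q * (star D * D) * q := by
    apply conj_mono hqs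
    rw [hDD]
    exact le_add_of_nonneg_right (star_mul_self_nonneg B)
  have hsub : q * (star D * D) * q - q * (star A * A) * q = q * (star B * B) * q := by
    rw [hDD]; noncomm_ring
  have hc1 : IsCompactOperator (q * (star A * A) * q : H →L[ℂ] H) :=
    compact_mul_right (compact_mul_left (compact_star_mul hAc) q) q
  have hc2 : IsCompactOperator (q * (star B * B) * q : H →L[ℂ] H) :=
    compact_mul_right (compact_mul_left (compact_star_mul hBc) q) q
  have hD0 : 0 ≤ q * (star D * D) * q := conj_nonneg' hqs (star_mul_self_nonneg D)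
  have hmono := tr_pw_mono b (r := p / 2) (by positivity) (by intro h; apply hp; linarith)
    (conj_nonneg' hqs (star_mul_self_nonneg A)) hle hc1 (by rw [hsub]; exact hc2)
  unfold Qp
  rw [hZ]
  refine hmono.trans ?_
  have heig : ∀ j, (q * (star D * D) * q) (f j) =
      ((if j ∈ s then 0 else δ j : ℝ) : ℂ) • f j := by
    intro j
    rw [ContinuousLinearMap.mul_apply, hqf]
    by_cases hj : j ∈ s
    · rw [if_pos hj, if_pos hj]; simp
    · rw [if_neg hj, if_neg hj, ContinuousLinearMap.mul_apply, hf, map_smul, hqf, if_neg hj]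
  rw [tr_eq b f (pw_nonneg _ hD0), tr_pw_eigen f (by positivity) hD0 heig]
  have h1 : ∀ i, ENNReal.ofReal ((if i ∈ s then 0 else δ i : ℝ) ^ (p / 2)) =
      ({i | i ∉ s} : Set ι).indicator (fun i => ENNReal.ofReal (δ i ^ (p / 2))) i := by
    intro i
    by_cases hi : i ∈ s
    · simp [hi, Real.zero_rpow (by positivity : p / 2 ≠ 0)]
    · simp [hi]
  simp_rw [h1]
  exact (tsum_subtype ({i | i ∉ s} : Set ι) (fun i => ENNReal.ofReal (δ i ^ (p / 2)))).ge

lemma arith_aux {C N : ℝ} (hC : C ≠ 0) (hN : N ≠ 0) (e c : ℝ) (k : ℕ) :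
    C ^ k * (c * (e / (4 * C ^ (k + 1) * N))) = e / (4 * C) * (c / N) := by
  rw [pow_succ]
  field_simp

/-- Two members of a family of orthogonal splittings of a fixed operator are close. -/
lemma exists_close (b : HilbertBasis κ ℂ H) {p : ℝ} (hp1 : 1 < p) (hp : p ≠ 2)
    {D : H →L[ℂ] H} (hD : Qp b p D ≠ ⊤) (A B : ℕ → H →L[ℂ] H)
    (hAB : ∀ n, A n + B n = D) (h1 : ∀ n, A n * star (B n) = 0)
    (h2 : ∀ n, star (A n) * B n = 0) (hA : ∀ n, IsCompactOperator (A n))
    (hB : ∀ n, IsCompactOperator (B n)) {e : ℝ} (he : 0 < e) :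
    ∃ n m, n < m ∧ Qp b p (A m - A n) < ENNReal.ofReal e := by
  classical
  have hp0 : 0 < p := by linarith
  have hDc := compact_of_Qp b hp0 hD
  have hD0 := star_mul_self_nonneg D
  obtain ⟨ι, f, δ, hδ, hf⟩ := exists_eigenbasis hD0 (compact_star_mul hDc)
  set C : ℝ := 2 ^ p with hC
  have hC1 : 1 ≤ C := Real.one_le_rpow (by norm_num) (by linarith)
  have hC0 : 0 < C := by linarith
  -- tails
  have hsum : ∑' i, ENNReal.ofReal (δ i ^ (p / 2)) ≠ ⊤ := by
    rw [← tr_pw_eigen f (by positivity) hD0 hf, ← tr_eq b f (pw_nonneg _ hD0)]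
    exact hD
  have ht := ENNReal.tendsto_tsum_compl_atTop_zero hsum
  have hη : (0 : ℝ≥0∞) < ENNReal.ofReal (e / (4 * C ^ 2)) := ENNReal.ofReal_pos.mpr (by positivity)
  obtain ⟨s, hs⟩ := ((tendsto_order.1 ht).2 _ hη).exists
  -- the finite part
  set N : ℝ := (s.card : ℝ) + 1 with hN
  have hN0 : 0 < N := by positivity
  -- τ with C^{|s|+1} |s| τ^p ≤ e / 4
  set τ : ℝ := (e / (4 * C ^ (s.card + 1) * N)) ^ (1 / p) with hτ
  have hτ0 : 0 < τ := by positivity
  have hτp : τ ^ p = e / (4 * C ^ (s.card + 1) * N) := by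
    rw [hτ, ← Real.rpow_mul (by positivity)]
    have : 1 / p * p = 1 := by field_simp
    rw [this, Real.rpow_one]
  have hstar : IsCompactOperator (star D : H →L[ℂ] H) := by
    apply compact_of_Qp b hp0
    rwa [Qp_star b hp0]
  let K : Set H := closure ((star D : H →L[ℂ] H) '' Metric.closedBall 0 ‖D‖)
  have hK : IsCompact K := by
    have := hstar.isCompact_closure_image_closedBall (𝕜₁ := ℂ) ‖D‖
    exact this
  let v : ℕ → (s → H) := fun n i => (star D) (A n (f i))
  have hv : ∀ n, v n ∈ Set.pi Set.univ (fun _ : s => K) := by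
    intro n i _
    apply subset_closure
    refine ⟨A n (f i), ?_, rfl⟩
    rw [mem_closedBall_zero_iff]
    calc ‖A n (f i)‖ ≤ ‖(A n + B n) (f i)‖ := norm_le_of_orth (h2 n) _
      _ = ‖D (f i)‖ := by rw [hAB]
      _ ≤ ‖D‖ * ‖f i‖ := D.le_opNorm _
      _ = ‖D‖ := by rw [f.orthonormal.1]; ring
  obtain ⟨a, -, φ, hφ, hlim⟩ := (isCompact_univ_pi fun _ : s => hK).tendsto_subseq hv
  have hlim2 : Tendsto (fun k => v (φ (k + 1)) - v (φ k)) atTop (𝓝 0) := by
    have h3 := (hlim.comp (tendsto_add_atTop_nat 1)).sub hlim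
    rw [sub_self] at h3
    exact h3
  have hτ2 : 0 < τ ^ 2 / 2 := by positivity
  obtain ⟨k, hk⟩ := ((Metric.tendsto_nhds.mp hlim2) _ hτ2).exists
  rw [dist_zero_right] at hk
  refine ⟨φ k, φ (k + 1), hφ (Nat.lt_succ_self k), ?_⟩
  set m := φ (k + 1) with hm
  set n := φ k with hn
  set X := A m - A n with hX
  -- bounds for vectors
  have hAstar : ∀ n v, ‖(star (A n)) v‖ ≤ ‖(star D) v‖ := by
    intro n v
    rw [← hAB n, star_add]
    apply norm_le_of_orth
    rw [star_star, h1]
  have hXf : ∀ i ∈ s, ‖X (f i)‖ ≤ τ := by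
    intro i hi
    have h3 : ‖(star D) (X (f i))‖ ≤ τ ^ 2 / 2 := by
      have h4 : (star D) (X (f i)) = (v m - v n) ⟨i, hi⟩ := by
        simp only [v, hX, Pi.sub_apply, ContinuousLinearMap.sub_apply, map_sub]
      rw [h4]
      exact (norm_le_pi_norm _ _).trans hk.le
    have h5 : ‖(star X) (X (f i))‖ ≤ 2 * ‖(star D) (X (f i))‖ := by
      have e1 : (star X) (X (f i)) = (star (A m)) (X (f i)) - (star (A n)) (X (f i)) := by
        conv_lhs => rw [hX, star_sub]
        simp [hX]
      rw [e1]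
      calc ‖(star (A m)) (X (f i)) - (star (A n)) (X (f i))‖
          ≤ ‖(star (A m)) (X (f i))‖ + ‖(star (A n)) (X (f i))‖ := norm_sub_le _ _
        _ ≤ ‖(star D) (X (f i))‖ + ‖(star D) (X (f i))‖ := add_le_add (hAstar _ _) (hAstar _ _)
        _ = 2 * ‖(star D) (X (f i))‖ := by ring
    have h6 : ‖X (f i)‖ ^ 2 ≤ ‖(star X) (X (f i))‖ := by
      rw [normsq_eq, ← inner_star_right]
      calc (⟪f i, (star X) (X (f i))⟫_ℂ).re ≤ ‖⟪f i, (star X) (X (f i))⟫_ℂ‖ :=
            Complex.re_le_norm _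
        _ ≤ ‖f i‖ * ‖(star X) (X (f i))‖ := norm_inner_le_norm _ _
        _ = ‖(star X) (X (f i))‖ := by rw [f.orthonormal.1 i, one_mul]
    have h7 : ‖X (f i)‖ ^ 2 ≤ τ ^ 2 := by linarith
    exact (sq_le_sq₀ (norm_nonneg _) hτ0.le).mp h7
  -- decomposition
  have hdec : X = cut f s X + ((A m - cut f s (A m)) - (A n - cut f s (A n))) := by
    apply ext_basis f
    intro j
    simp only [ContinuousLinearMap.add_apply, ContinuousLinearMap.sub_apply, cut_apply, hX]
    split_ifs <;> abel
  have hcut : Qp b p (cut f s X) ≤ ENNReal.ofReal (e / (4 * C)) := by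
    rw [cut_eq_sum_rk]
    refine (Qp_sum_le b hp1 hp s _).trans ?_
    have h3 : ∑ i ∈ s, Qp b p (rk (f i) (X (f i))) ≤ ENNReal.ofReal (s.card * τ ^ p) := by
      calc ∑ i ∈ s, Qp b p (rk (f i) (X (f i))) ≤ ∑ i ∈ s, ENNReal.ofReal (τ ^ p) := by
            apply Finset.sum_le_sum
            intro i hi
            rw [Qp_rk b f hp0]
            apply ENNReal.ofReal_le_ofReal
            exact Real.rpow_le_rpow (norm_nonneg _) (hXf i hi) hp0.le
        _ = ENNReal.ofReal (s.card * τ ^ p) := by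
            rw [Finset.sum_const, nsmul_eq_mul, ENNReal.ofReal_mul (Nat.cast_nonneg _),
              ENNReal.ofReal_natCast]
    calc ENNReal.ofReal ((2 ^ p) ^ s.card) * ∑ i ∈ s, Qp b p (rk (f i) (X (f i)))
        ≤ ENNReal.ofReal (C ^ s.card) * ENNReal.ofReal (s.card * τ ^ p) := by gcongr
      _ = ENNReal.ofReal (C ^ s.card * (s.card * τ ^ p)) := by
          rw [← ENNReal.ofReal_mul (by positivity)]
      _ ≤ ENNReal.ofReal (e / (4 * C)) := by
          apply ENNReal.ofReal_le_ofReal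
          rw [hτp]
          have h4 : C ^ s.card * (s.card * (e / (4 * C ^ (s.card + 1) * N))) =
              e / (4 * C) * (s.card / N) := arith_aux hC0.ne' hN0.ne' _ _ _
          rw [h4]
          have h5 : (s.card : ℝ) / N ≤ 1 := by
            rw [div_le_one hN0, hN]; linarith
          have h6 : 0 ≤ e / (4 * C) := by positivity
          nlinarith
  have htail : ∀ n, Qp b p (A n - cut f s (A n)) ≤ ENNReal.ofReal (e / (4 * C ^ 2)) := by
    intro n
    exact (tail_bound b f hp0 hp (hAB n) (h2 n) (hA n) (hB n) hf s).trans hs.le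
  have hdiff : Qp b p ((A m - cut f s (A m)) - (A n - cut f s (A n))) ≤
      ENNReal.ofReal (e / (2 * C)) := by
    refine (Qp_sub_le b hp1 hp _ _).trans ?_
    calc ENNReal.ofReal (2 ^ p) * (Qp b p (A m - cut f s (A m)) + Qp b p (A n - cut f s (A n)))
        ≤ ENNReal.ofReal C * (ENNReal.ofReal (e / (4 * C ^ 2)) +
          ENNReal.ofReal (e / (4 * C ^ 2))) := by
          gcongr
          · exact htail m
          · exact htail n
      _ = ENNReal.ofReal (e / (2 * C)) := by
          rw [← ENNReal.ofReal_add (by positivity) (by positivity),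
            ← ENNReal.ofReal_mul (by positivity)]
          congr 1
          field_simp
          ring
  rw [hdec]
  refine lt_of_le_of_lt (Qp_add_le b hp1 hp _ _) ?_
  calc ENNReal.ofReal (2 ^ p) * (Qp b p (cut f s X) +
        Qp b p ((A m - cut f s (A m)) - (A n - cut f s (A n))))
      ≤ ENNReal.ofReal C * (ENNReal.ofReal (e / (4 * C)) + ENNReal.ofReal (e / (2 * C))) := by
        gcongr
    _ = ENNReal.ofReal (3 / 4 * e) := by
        rw [← ENNReal.ofReal_add (by positivity) (by positivity),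
          ← ENNReal.ofReal_mul (by positivity)]
        congr 1
        field_simp
        ring
    _ < ENNReal.ofReal e := by
        rw [ENNReal.ofReal_lt_ofReal_iff he]
        linarith

end Pool.Agent.H44.Sch
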