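import Pool.Agent.H44.Sch.Close

/-!
The core of the argument: the averaging map on two basis vectors, its bounds, and the absence of
isometric dilations.
-/

set_option autoImplicit false
open scoped NNReal ENNReal InnerProductSpace
open ContinuousLinearMap Filter Topology

namespace Pool.Agent.H44.Sch
set_option linter.unusedSectionVars false
set_option linter.deprecated false

open Pool.Agent.H53 (inner_star_left inner_star_right normsq_eq norm_le_of_orth)

universe u v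
variable {H : Type u} [NormedAddCommGroup H] [InnerProductSpace ℂ H] [CompleteSpace H]
variable {ι κ : Type*}

lemma Qp_add_lt_top (b : HilbertBasis ι ℂ H) {p : ℝ} (hp : 1 ≤ p) {x y : H →L[ℂ] H}
    (hx : Qp b p x < ⊤) (hy : Qp b p y < ⊤) : Qp b p (x + y) < ⊤ := by
  have hp0 : 0 < p := by linarith
  rcases lt_trichotomy p 2 with h | h | h
  · refine lt_of_le_of_lt (le_trans le_self_add (clark_lt b hp0 h (compact_of_Qp b hp0 hx.ne)
      (compact_of_Qp b hp0 hy.ne))) ?_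
    exact ENNReal.add_lt_top.mpr ⟨ENNReal.add_lt_top.mpr ⟨hx, hy⟩, ENNReal.add_lt_top.mpr ⟨hx, hy⟩⟩
  · subst h
    have e : ∀ z : H →L[ℂ] H, Qp b 2 z = tr b (star z * z) := by
      intro z
      unfold Qp
      rw [show (2 : ℝ) / 2 = 1 by norm_num, pw_one (star_mul_self_nonneg z)]
    rw [e] at hx hy ⊢
    have h1 : tr b (star (x + y) * (x + y)) ≤
        tr b (star (x + y) * (x + y) + star (x - y) * (x - y)) :=
      tr_mono b (le_add_of_nonneg_right (star_mul_self_nonneg _))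
    refine lt_of_le_of_lt h1 ?_
    have hs := add_nonneg (star_mul_self_nonneg x) (star_mul_self_nonneg y)
    rw [par, tr_add b hs hs, tr_add b (star_mul_self_nonneg x) (star_mul_self_nonneg y)]
    exact ENNReal.add_lt_top.mpr ⟨ENNReal.add_lt_top.mpr ⟨hx, hy⟩, ENNReal.add_lt_top.mpr ⟨hx, hy⟩⟩
  · refine lt_of_le_of_lt (Qp_add_le b (by linarith) h.ne' x y) ?_
    exact ENNReal.mul_lt_top ENNReal.ofReal_lt_top (ENNReal.add_lt_top.mpr ⟨hx, hy⟩)

lemma Qp_smul_lt_top (b : HilbertBasis ι ℂ H) {p : ℝ} (hp : 1 ≤ p) (c : ℂ) {x : H →L[ℂ] H}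
    (hx : Qp b p x < ⊤) : Qp b p (c • x) < ⊤ := by
  rw [Qp_smul b (by linarith)]
  exact ENNReal.mul_lt_top ENNReal.ofReal_lt_top hx

section avg

variable (b : HilbertBasis ι ℂ H) (i j : ι)

/-- projection on one basis vector -/
noncomputable def pj (i : ι) : H →L[ℂ] H := rk (b i) (b i)

lemma inner_b [DecidableEq ι] (i j : ι) : ⟪b i, b j⟫_ℂ = if i = j then 1 else 0 :=
  orthonormal_iff_ite.mp b.orthonormal i j

lemma pj_apply [DecidableEq ι] (k : ι) : pj b i (b k) = if i = k then b k else 0 := by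
  unfold pj
  rw [rk_apply, inner_b]
  split_ifs with h
  · rw [one_smul, h]
  · rw [zero_smul]

/-- projection on two basis vectors -/
noncomputable def e2 : H →L[ℂ] H := pj b i + pj b j

lemma e2_apply [DecidableEq ι] (h : i ≠ j) (k : ι) :
    e2 b i j (b k) = ((if k = i ∨ k = j then 1 else 0 : ℝ) : ℂ) • b k := by
  unfold e2
  rw [ContinuousLinearMap.add_apply, pj_apply, pj_apply]
  by_cases h1 : k = i
  · subst h1
    rw [if_pos rfl, if_neg (Ne.symm h)]
    simp
  · by_cases h2 : k = j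
    · subst h2
      rw [if_neg h, if_pos rfl]
      simp
    · rw [if_neg (fun h => h1 h.symm), if_neg (fun h => h2 h.symm)]
      simp [h1, h2]

lemma star_pj : star (pj b i) = pj b i := by unfold pj; rw [star_rk]

lemma star_e2 : star (e2 b i j) = e2 b i j := by
  unfold e2
  rw [star_add, star_pj, star_pj]

lemma gram_e2 (h : i ≠ j) (c : ℂ) (hc : ‖c‖ = 1) :
    star (pj b i + c • pj b j) * (pj b i + c • pj b j) = e2 b i j := by
  classical
  apply ext_basis b
  intro k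
  have hcc : (starRingEnd ℂ) c * c = 1 := by
    rw [Complex.conj_mul', hc]; norm_num
  have h1 : ∀ v : H, (star (pj b i + c • pj b j)) v = pj b i v + (starRingEnd ℂ) c • pj b j v := by
    intro v
    rw [star_add, star_smul, star_pj, star_pj]
    rfl
  rw [ContinuousLinearMap.mul_apply, h1, e2_apply b i j h]
  by_cases h2 : k = i
  · subst h2
    simp [pj_apply, Ne.symm h]
  · by_cases h3 : k = j
    · subst h3
      simp [pj_apply, h, smul_smul, hcc]
    · have h2' : ¬ i = k := fun h => h2 h.symm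
      have h3' : ¬ j = k := fun h => h3 h.symm
      simp [pj_apply, h2, h3, h2', h3']

lemma e2_nonneg (h : i ≠ j) : 0 ≤ e2 b i j := by
  rw [← gram_e2 b i j h 1 (by simp)]
  exact star_mul_self_nonneg _

lemma tsum_two [DecidableEq ι] (h : i ≠ j) (φ : ι → ℝ≥0∞) (hφ : ∀ k, k ≠ i → k ≠ j → φ k = 0) :
    ∑' k, φ k = φ i + φ j := by
  rw [tsum_eq_sum (s := {i, j})]
  · rw [Finset.sum_pair h]
  · intro k hk
    simp only [Finset.mem_insert, Finset.mem_singleton, not_or] at hk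
    exact hφ k hk.1 hk.2

lemma tr_pw_e2 (h : i ≠ j) {r : ℝ} (hr : 0 < r) : tr b (pw r (e2 b i j)) = 2 := by
  classical
  rw [tr_pw_eigen b hr.le (e2_nonneg b i j h) (e2_apply b i j h), tsum_two i j h]
  · simp
    norm_num
  · intro k h1 h2
    rw [if_neg (by tauto), Real.zero_rpow hr.ne', ENNReal.ofReal_zero]

lemma Qp_comb (h : i ≠ j) {p : ℝ} (hp : 0 < p) (c : ℂ) (hc : ‖c‖ = 1) :
    Qp b p (pj b i + c • pj b j) = 2 := by
  unfold Qp
  rw [gram_e2 b i j h c hc, tr_pw_e2 b i j h (by positivity)]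

lemma Qp_e2 (h : i ≠ j) {p : ℝ} (hp : 0 < p) : Qp b p (e2 b i j) = 2 := by
  have := Qp_comb b i j h hp 1 (by simp)
  rwa [one_smul] at this

lemma Qp_pj {p : ℝ} (hp : 0 < p) : Qp b p (pj b i) = 1 := by
  classical
  unfold pj
  rw [Qp_rk b b hp, b.orthonormal.1, Real.one_rpow, ENNReal.ofReal_one]

/-- averaging coefficient -/
noncomputable def cf (x : H →L[ℂ] H) : ℂ := (2⁻¹ : ℂ) * (⟪b i, x (b i)⟫_ℂ + ⟪b j, x (b j)⟫_ℂ)

/-- the averaging map -/
noncomputable def av : (H →L[ℂ] H) →ₗ[ℂ] (H →L[ℂ] H) where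
  toFun x := cf b i j x • e2 b i j
  map_add' x y := by
    rw [← add_smul]
    congr 1
    simp only [cf, ContinuousLinearMap.add_apply, inner_add_right]
    ring
  map_smul' c x := by
    rw [RingHom.id_apply, smul_smul]
    congr 1
    simp only [cf, ContinuousLinearMap.smul_apply, inner_smul_right]
    ring

lemma av_apply (x : H →L[ℂ] H) : av b i j x = cf b i j x • e2 b i j := rfl

lemma cf_e2 (h : i ≠ j) : cf b i j (e2 b i j) = 1 := by
  classical
  unfold cf
  rw [e2_apply b i j h, e2_apply b i j h, inner_smul_right, inner_smul_right, inner_self_basis,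
    inner_self_basis]
  simp
  norm_num

lemma cf_pj (h : i ≠ j) : cf b i j (pj b i) = 2⁻¹ := by
  classical
  unfold cf
  rw [pj_apply, pj_apply, if_pos rfl, if_neg h, inner_self_basis, inner_zero_right]
  simp

lemma av_e2 (h : i ≠ j) : av b i j (e2 b i j) = e2 b i j := by
  rw [av_apply, cf_e2 b i j h, one_smul]

lemma norm_e2_le (h : i ≠ j) : ‖e2 b i j‖ ≤ 1 := by
  have h1 : e2 b i j * e2 b i j = e2 b i j := by
    classical
    apply ext_basis b
    intro k
    rw [ContinuousLinearMap.mul_apply, e2_apply b i j h, map_smul, e2_apply b i j h, smul_smul]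
    congr 1
    split_ifs <;> simp
  have h2 := CStarRing.norm_star_mul_self (x := e2 b i j)
  rw [star_e2, h1] at h2
  nlinarith [norm_nonneg (e2 b i j)]

lemma norm_cf_le (x : H →L[ℂ] H) :
    ‖cf b i j x‖ ≤ (‖⟪b i, x (b i)⟫_ℂ‖ + ‖⟪b j, x (b j)⟫_ℂ‖) / 2 := by
  unfold cf
  rw [norm_mul]
  have h2 : ‖(2⁻¹ : ℂ)‖ = 2⁻¹ := by simp
  rw [h2]
  linarith [norm_add_le ⟪b i, x (b i)⟫_ℂ ⟪b j, x (b j)⟫_ℂ]

lemma norm_av_le (h : i ≠ j) (x : H →L[ℂ] H) : ‖av b i j x‖ ≤ ‖x‖ := by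
  have h1 : ∀ k, ‖⟪b k, x (b k)⟫_ℂ‖ ≤ ‖x‖ := by
    intro k
    calc ‖⟪b k, x (b k)⟫_ℂ‖ ≤ ‖b k‖ * ‖x (b k)‖ := norm_inner_le_norm _ _
      _ ≤ ‖b k‖ * (‖x‖ * ‖b k‖) := by gcongr; exact x.le_opNorm _
      _ = ‖x‖ := by rw [b.orthonormal.1 k]; ring
  have hc : ‖cf b i j x‖ ≤ ‖x‖ := by
    have := norm_cf_le b i j x
    linarith [h1 i, h1 j]
  rw [av_apply, norm_smul]
  calc ‖cf b i j x‖ * ‖e2 b i j‖ ≤ ‖x‖ * 1 := by
        gcongr
        exact norm_e2_le b i j h
    _ = ‖x‖ := mul_one _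

/-- the averaging map contracts every Schatten norm -/
lemma Qp_av_le (h : i ≠ j) {p : ℝ} (hp : 1 ≤ p) (x : H →L[ℂ] H) :
    Qp b p (av b i j x) ≤ Qp b p x := by
  classical
  have hp0 : 0 < p := by linarith
  rw [av_apply, Qp_smul b hp0, Qp_e2 b i j h hp0]
  have hk : ∀ k, ‖⟪b k, x (b k)⟫_ℂ‖ ^ p ≤
      ((⟪b k, pw (p / 2) (x * star x) (b k)⟫_ℂ).re +
        (⟪b k, pw (p / 2) (star x * x) (b k)⟫_ℂ).re) / 2 := by
    intro k
    have h1 := ms_half x (b k) (b k)
    have hu := inner_nonneg (ab_nonneg (star x)) (b k)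
    have hv := inner_nonneg (ab_nonneg x) (b k)
    calc ‖⟪b k, x (b k)⟫_ℂ‖ ^ p
        ≤ (((⟪b k, ab (star x) (b k)⟫_ℂ).re + (⟪b k, ab x (b k)⟫_ℂ).re) / 2) ^ p :=
          Real.rpow_le_rpow (norm_nonneg _) h1 hp0.le
      _ ≤ ((⟪b k, ab (star x) (b k)⟫_ℂ).re ^ p + (⟪b k, ab x (b k)⟫_ℂ).re ^ p) / 2 :=
          mid_pow hp hu hv
      _ ≤ _ := by
          have h2 := jensen_ge (ab_nonneg (star x)) (b.orthonormal.1 k) hp
          have h3 := jensen_ge (ab_nonneg x) (b.orthonormal.1 k) hp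
          rw [pw_ab hp0.le, star_star] at h2
          rw [pw_ab hp0.le] at h3
          linarith
  have hc : ‖cf b i j x‖ ^ p * 2 ≤ ‖⟪b i, x (b i)⟫_ℂ‖ ^ p + ‖⟪b j, x (b j)⟫_ℂ‖ ^ p := by
    have h1 := Real.rpow_le_rpow (norm_nonneg _) (norm_cf_le b i j x) hp0.le
    have h2 := mid_pow hp (norm_nonneg ⟪b i, x (b i)⟫_ℂ) (norm_nonneg ⟪b j, x (b j)⟫_ℂ)
    linarith
  have e2' : (2 : ℝ≥0∞) = ENNReal.ofReal 2 := by simp
  rw [e2', ← ENNReal.ofReal_mul (by positivity)]
  have hA := mul_star_self_nonneg x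
  have hB := star_mul_self_nonneg x
  have h5 : ENNReal.ofReal (‖cf b i j x‖ ^ p * 2) ≤
      2⁻¹ * (ENNReal.ofReal (⟪b i, pw (p / 2) (x * star x) (b i)⟫_ℂ).re +
        ENNReal.ofReal (⟪b j, pw (p / 2) (x * star x) (b j)⟫_ℂ).re) +
      2⁻¹ * (ENNReal.ofReal (⟪b i, pw (p / 2) (star x * x) (b i)⟫_ℂ).re +
        ENNReal.ofReal (⟪b j, pw (p / 2) (star x * x) (b j)⟫_ℂ).re) := by
    have n1 := inner_nonneg (pw_nonneg (p / 2) hA) (b i)
    have n2 := inner_nonneg (pw_nonneg (p / 2) hA) (b j)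
    have n3 := inner_nonneg (pw_nonneg (p / 2) hB) (b i)
    have n4 := inner_nonneg (pw_nonneg (p / 2) hB) (b j)
    have e3 : (2⁻¹ : ℝ≥0∞) = ENNReal.ofReal 2⁻¹ := by
      rw [ENNReal.ofReal_inv_of_pos (by norm_num)]; simp
    rw [e3, ← ENNReal.ofReal_add n1 n2, ← ENNReal.ofReal_add n3 n4,
      ← ENNReal.ofReal_mul (by norm_num), ← ENNReal.ofReal_mul (by norm_num),
      ← ENNReal.ofReal_add (by positivity) (by positivity)]
    apply ENNReal.ofReal_le_ofReal
    linarith [hk i, hk j]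
  have hpair : ∀ A : H →L[ℂ] H, ENNReal.ofReal (⟪b i, A (b i)⟫_ℂ).re +
      ENNReal.ofReal (⟪b j, A (b j)⟫_ℂ).re ≤ tr b A := by
    intro A
    have := ENNReal.sum_le_tsum (f := fun k => ENNReal.ofReal (⟪b k, A (b k)⟫_ℂ).re) {i, j}
    rwa [Finset.sum_pair h] at this
  refine h5.trans ?_
  calc _ ≤ 2⁻¹ * tr b (pw (p / 2) (x * star x)) + 2⁻¹ * tr b (pw (p / 2) (star x * x)) := by
        gcongr
        · exact hpair _
        · exact hpair _
    _ = 2⁻¹ * Qp b p x + 2⁻¹ * Qp b p x := by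
        rw [← tr_pw_star b (by positivity) x]
        rfl
    _ = Qp b p x := by
        rw [← two_mul, ← mul_assoc, ENNReal.mul_inv_cancel (by norm_num) (by norm_num), one_mul]

end avg

section core

variable {K : Type v} [NormedAddCommGroup K] [InnerProductSpace ℂ K] [CompleteSpace K]

/-- The core of the argument, for submodules of finite Schatten sum. -/
theorem core {p : ℝ} (hp1 : 1 < p) (hp : p ≠ 2) (b : HilbertBasis ι ℂ H)
    (c : HilbertBasis κ ℂ K) {i j : ι} (hij : i ≠ j)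
    (M : Submodule ℂ (H →L[ℂ] H)) (N : Submodule ℂ (K →L[ℂ] K))
    (hM : ∀ x, x ∈ M ↔ Qp b p x < ⊤) (hN : ∀ y, y ∈ N ↔ Qp c p y < ⊤)
    (T : M →ₗ[ℂ] M) (hT : ∀ x, (T x : H →L[ℂ] H) = av b i j x)
    (J : M →ₗ[ℂ] N) (P U : N →ₗ[ℂ] N)
    (hJ : ∀ x, Qp c p (J x : K →L[ℂ] K) = Qp b p (x : H →L[ℂ] H))
    (hPJ : ∀ x, P (J x) = J x)
    (hP : ∀ y, Qp c p (P y : K →L[ℂ] K) ≤ Qp c p (y : K →L[ℂ] K))
    (hU : ∀ y, Qp c p (U y : K →L[ℂ] K) = Qp c p (y : K →L[ℂ] K))
    (hdil : ∀ (n : ℕ) (x : M), P ((U ^ n) (J x)) = J ((T ^ n) x)) : False := by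
  have hp0 : 0 < p := by linarith
  -- elements of M
  have hE0q := Qp_pj b i hp0
  have hE1q := Qp_pj b j hp0
  have hEq := Qp_e2 b i j hij hp0
  set E0 : M := ⟨pj b i, (hM _).mpr (by rw [hE0q]; exact ENNReal.one_lt_top)⟩ with hE0
  set E1 : M := ⟨pj b j, (hM _).mpr (by rw [hE1q]; exact ENNReal.one_lt_top)⟩ with hE1
  set E : M := ⟨e2 b i j, (hM _).mpr (by rw [hEq]; exact ENNReal.ofNat_lt_top)⟩ with hE
  have hEsum : E0 + E1 = E := rfl
  have hTE : T E = E := by
    apply Subtype.ext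
    rw [hT]
    exact av_e2 b i j hij
  have hTE0 : T E0 = (2⁻¹ : ℂ) • E := by
    apply Subtype.ext
    rw [hT, av_apply, cf_pj b i j hij]
    rfl
  have hTn : ∀ n : ℕ, (T ^ (n + 1)) E0 = (2⁻¹ : ℂ) • E := by
    intro n
    induction n with
    | zero => rw [zero_add, pow_one, hTE0]
    | succ n ih => rw [pow_succ', Module.End.mul_apply, ih, map_smul, hTE]
  -- powers of U
  have hUn : ∀ (n : ℕ) (y : N), Qp c p ((U ^ n) y : K →L[ℂ] K) = Qp c p (y : K →L[ℂ] K) := by
    intro n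
    induction n with
    | zero => intro y; simp
    | succ n ih =>
      intro y
      rw [pow_succ', Module.End.mul_apply, hU, ih]
  set D : N := J E with hD
  have hDq : Qp c p (D : K →L[ℂ] K) = 2 := by rw [hD, hJ]; exact hEq
  have hfin : ∀ y : N, Qp c p (y : K →L[ℂ] K) ≠ ⊤ := fun y => ((hN y).mp y.2).ne
  -- U fixes D
  have hUD : U D = D := by
    have hPUD : P (U D) = D := by
      have := hdil 1 E
      rw [pow_one, pow_one, hTE] at this
      exact this
    set m : N := (2⁻¹ : ℂ) • (D + U D) with hm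
    set d : N := (2⁻¹ : ℂ) • (D - U D) with hd
    have hPm : P m = D := by
      rw [hm, map_smul, map_add, hPUD, hPJ, ← two_smul ℂ D, smul_smul]
      norm_num
    have hge : Qp c p (D : K →L[ℂ] K) ≤ Qp c p (m : K →L[ℂ] K) := by
      have := hP m
      rwa [hPm] at this
    have e1 : m + d = D := by
      rw [hm, hd, ← smul_add, add_add_sub_cancel, ← two_smul ℂ D, smul_smul]
      norm_num
    have e2' : m - d = U D := by
      rw [hm, hd]
      module
    have e1c : (m : K →L[ℂ] K) + (d : K →L[ℂ] K) = (D : K →L[ℂ] K) := congrArg Subtype.val e1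
    have e2c : (m : K →L[ℂ] K) - (d : K →L[ℂ] K) = (U D : K →L[ℂ] K) := congrArg Subtype.val e2'
    have hd0 : (d : K →L[ℂ] K) = 0 := by
      apply strict c hp1 hp (c := (m : K →L[ℂ] K))
      · rw [e1c]; exact hfin D
      · rw [e2c]; exact hfin (U D)
      · rw [e1c]; exact hge
      · rw [e2c, hU]; exact hge
    have hd1 : d = 0 := Subtype.ext hd0
    rw [hd1] at e1 e2'
    rw [sub_zero] at e2'
    rw [add_zero] at e1
    rw [← e2', e1]
  have hUnD : ∀ n : ℕ, (U ^ n) D = D := by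
    intro n
    induction n with
    | zero => simp
    | succ n ih => rw [pow_succ', Module.End.mul_apply, ih, hUD]
  -- the two pieces
  let A : ℕ → N := fun n => (U ^ n) (J E0)
  let B : ℕ → N := fun n => (U ^ n) (J E1)
  have hAB : ∀ n, A n + B n = D := by
    intro n
    change (U ^ n) (J E0) + (U ^ n) (J E1) = D
    rw [← map_add, ← map_add, hEsum]
    exact hUnD n
  have hW : ∀ (n : ℕ) (x : M), Qp c p ((U ^ n) (J x) : K →L[ℂ] K) = Qp b p (x : H →L[ℂ] H) := by
    intro n x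
    rw [hUn, hJ]
  have hcomb : ∀ (n : ℕ) (z : ℂ), ‖z‖ = 1 →
      Qp c p ((A n : K →L[ℂ] K) + z • (B n : K →L[ℂ] K)) = 2 := by
    intro n z hz
    have e1 : (A n : K →L[ℂ] K) + z • (B n : K →L[ℂ] K) = ((U ^ n) (J (E0 + z • E1)) : N) := by
      have : (U ^ n) (J (E0 + z • E1)) = A n + z • B n := by
        rw [map_add, map_add, map_smul, map_smul]
      rw [this]
      rfl
    rw [e1, hW]
    exact Qp_comb b i j hij hp0 z hz
  have hAq : ∀ n, Qp c p (A n : K →L[ℂ] K) = 1 := fun n => (hW n E0).trans hE0q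
  have hBq : ∀ n, Qp c p (B n : K →L[ℂ] K) = 1 := fun n => (hW n E1).trans hE1q
  have hnum : (2 : ℝ≥0∞) + 2 = (1 + 1) + (1 + 1) := by norm_num
  have horth : ∀ n, star (A n : K →L[ℂ] K) * (B n : K →L[ℂ] K) = 0 ∧
      (A n : K →L[ℂ] K) * star (B n : K →L[ℂ] K) = 0 := by
    intro n
    apply orth_of_eq c hp0 hp (hfin (A n)) (hfin (B n))
    · have h1 := hcomb n 1 (by simp)
      have h2 := hcomb n (-1) (by simp)
      rw [one_smul] at h1
      rw [neg_smul, one_smul, ← sub_eq_add_neg] at h2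
      rw [h1, h2, hAq, hBq, hnum]
    · have h1 := hcomb n Complex.I (by simp)
      have h2 := hcomb n (-Complex.I) (by simp)
      rw [neg_smul, ← sub_eq_add_neg] at h2
      rw [h1, h2, hAq, hBq, hnum]
  -- the lower bound
  set F : M := (2⁻¹ : ℂ) • E with hF
  set e := Qp b p ((F - E0 : M) : H →L[ℂ] H) with he
  have hefin : e ≠ ⊤ := ((hM _).mp (F - E0).2).ne
  have hepos : e ≠ 0 := by
    intro h0
    have h1 := Qp_eq_zero b hp0 h0
    have h2 : ((F : H →L[ℂ] H) - (E0 : H →L[ℂ] H)) (b i) = 0 := by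
      have : ((F - E0 : M) : H →L[ℂ] H) = (F : H →L[ℂ] H) - (E0 : H →L[ℂ] H) := rfl
      rw [← this, h1]
      simp
    classical
    have h3 : (F : H →L[ℂ] H) = (2⁻¹ : ℂ) • e2 b i j := rfl
    have h4 : (E0 : H →L[ℂ] H) = pj b i := rfl
    rw [h3, h4, ContinuousLinearMap.sub_apply, ContinuousLinearMap.smul_apply,
      e2_apply b i j hij, pj_apply, if_pos rfl] at h2
    simp only [true_or, if_true, Complex.ofReal_one, one_smul] at h2
    have h5 : ((2⁻¹ : ℂ) - 1) • b i = 0 := by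
      rw [sub_smul, one_smul]; exact h2
    rcases smul_eq_zero.mp h5 with h6 | h6
    · norm_num at h6
    · have := b.orthonormal.1 i
      rw [h6, norm_zero] at this
      norm_num at this
  have hereal : 0 < e.toReal := ENNReal.toReal_pos hepos hefin
  obtain ⟨n, m, hnm, hlt⟩ := exists_close c hp1 hp (hfin D) (fun n => (A n : K →L[ℂ] K))
    (fun n => (B n : K →L[ℂ] K)) (fun n => congrArg Subtype.val (hAB n))
    (fun n => (horth n).2) (fun n => (horth n).1) (fun n => compact_of_Qp c hp0 (hfin (A n)))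
    (fun n => compact_of_Qp c hp0 (hfin (B n))) hereal
  rw [ENNReal.ofReal_toReal hefin] at hlt
  obtain ⟨k, rfl⟩ := Nat.exists_eq_add_of_lt hnm
  set V : N := (U ^ (k + 1)) (J E0) - J E0 with hV
  have hdiff : A (n + k + 1) - A n = (U ^ n) V := by
    change (U ^ (n + k + 1)) (J E0) - (U ^ n) (J E0) = (U ^ n) V
    rw [hV, map_sub, show n + k + 1 = n + (k + 1) by ring, pow_add, Module.End.mul_apply]
  have hPV : P V = J (F - E0) := by
    rw [hV, map_sub, hdil, hTn, hPJ, map_sub]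
  have hlow : e ≤ Qp c p ((A (n + k + 1) : K →L[ℂ] K) - (A n : K →L[ℂ] K)) := by
    have e1 : (A (n + k + 1) : K →L[ℂ] K) - (A n : K →L[ℂ] K) = ((U ^ n) V : N) :=
      congrArg Subtype.val hdiff
    rw [e1, hUn, he, ← hJ (F - E0), ← hPV]
    exact hP V
  exact absurd hlt (not_lt.mpr hlow)

end core

end Pool.Agent.H44.Sch
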