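import Pool.Agent.H44.Sch.Base

/-!
Functional calculus: intertwining, eigenvectors, compactness, and eigenbases of compact positive
operators.
-/

set_option autoImplicit false
open scoped NNReal ENNReal InnerProductSpace
open ContinuousLinearMap Filter Topology

namespace Pool.Agent.H44.Sch
set_option linter.unusedSectionVars false
set_option linter.deprecated false

open Pool.Agent.H53 (inner_star_left inner_star_right normsq_eq)

universe u
variable {H : Type u} [NormedAddCommGroup H] [InnerProductSpace ℂ H] [CompleteSpace H]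
variable {ι κ : Type*}

lemma semiconj_poly {A B x : H →L[ℂ] H} (h : x * A = B * x) (q : Polynomial ℝ) :
    x * Polynomial.aeval A q = Polynomial.aeval B q * x := by
  induction q using Polynomial.induction_on with
  | C r => rw [Polynomial.aeval_C, Polynomial.aeval_C]; exact (Algebra.commutes r x).symm
  | add p q hp hq => rw [map_add, map_add, mul_add, add_mul, hp, hq]
  | monomial n r ih =>
    rw [pow_succ, ← mul_assoc, map_mul (Polynomial.aeval A), map_mul (Polynomial.aeval B),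
      ← mul_assoc, ih, Polynomial.aeval_X, Polynomial.aeval_X, mul_assoc, mul_assoc, h]

lemma spec_bound {A : H →L[ℂ] H} {M : ℝ} (hM : ‖A‖ * ‖(1 : H →L[ℂ] H)‖ ≤ M) {t : ℝ}
    (ht : t ∈ spectrum ℝ A) : t ∈ Set.Icc (-M) M := by
  have := spectrum.norm_le_norm_mul_of_mem ht
  rw [Real.norm_eq_abs] at this
  exact abs_le.mp (this.trans hM)

lemma exists_poly {A : H →L[ℂ] H} {M : ℝ} (hM : ‖A‖ * ‖(1 : H →L[ℂ] H)‖ ≤ M)
    (hA : IsSelfAdjoint A) {f : ℝ → ℝ} (hf : Continuous f) {ε : ℝ} {q : Polynomial ℝ}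
    (hq : ∀ t ∈ Set.Icc (-M) M, |q.eval t - f t| < ε) (hε : 0 < ε) :
    ‖cfc f A - Polynomial.aeval A q‖ ≤ ε := by
  rw [← cfc_polynomial q A hA, ← cfc_sub f (fun t => q.eval t) A hf.continuousOn
    q.continuous.continuousOn]
  apply norm_cfc_le hε.le
  intro t ht
  have := hq t (spec_bound hM ht)
  rw [Real.norm_eq_abs, abs_sub_comm]
  exact this.le

lemma semiconj_cfc {A B x : H →L[ℂ] H} (h : x * A = B * x) (hA : IsSelfAdjoint A)
    (hB : IsSelfAdjoint B) {f : ℝ → ℝ} (hf : Continuous f) : x * cfc f A = cfc f B * x := by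
  set M : ℝ := max (‖A‖ * ‖(1 : H →L[ℂ] H)‖) (‖B‖ * ‖(1 : H →L[ℂ] H)‖) with hM
  have key : ∀ ε > 0, ‖x * cfc f A - cfc f B * x‖ ≤ 2 * ‖x‖ * ε := by
    intro ε hε
    obtain ⟨q, hq⟩ := exists_polynomial_near_of_continuousOn (-M) M f hf.continuousOn ε hε
    have h1 := exists_poly (le_max_left _ _) hA hf hq hε
    have h2 := exists_poly (le_max_right _ _) hB hf hq hε
    have e : x * cfc f A - cfc f B * x =
        x * (cfc f A - Polynomial.aeval A q) - (cfc f B - Polynomial.aeval B q) * x := by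
      rw [mul_sub, sub_mul, semiconj_poly h q]; abel
    rw [e]
    calc ‖x * (cfc f A - Polynomial.aeval A q) - (cfc f B - Polynomial.aeval B q) * x‖
        ≤ ‖x * (cfc f A - Polynomial.aeval A q)‖ + ‖(cfc f B - Polynomial.aeval B q) * x‖ :=
          norm_sub_le _ _
      _ ≤ ‖x‖ * ε + ε * ‖x‖ := by
          apply add_le_add
          · exact (norm_mul_le _ _).trans (by gcongr)
          · exact (norm_mul_le _ _).trans (by gcongr)
      _ = 2 * ‖x‖ * ε := by ring
  have h0 : ‖x * cfc f A - cfc f B * x‖ ≤ 0 := by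
    apply le_of_forall_pos_le_add
    intro ε hε
    have h3 := key (ε / (2 * ‖x‖ + 1)) (by positivity)
    have h4 : 2 * ‖x‖ * (ε / (2 * ‖x‖ + 1)) ≤ ε := by
      rw [← mul_div_assoc, div_le_iff₀ (by positivity)]
      nlinarith [norm_nonneg x]
    linarith
  exact sub_eq_zero.mp (norm_le_zero_iff.mp h0)

lemma cfc_eigen {A : H →L[ℂ] H} (hA : IsSelfAdjoint A) {v : H} {μ : ℝ}
    (hv : A v = (μ : ℂ) • v) {f : ℝ → ℝ} (hf : Continuous f) :
    (cfc f A) v = (f μ : ℂ) • v := by
  by_cases hv0 : v = 0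
  · simp [hv0]
  set x : H →L[ℂ] H := (innerSL ℂ v).smulRight v with hx
  have hxw : ∀ w, x w = ⟪v, w⟫_ℂ • v := by intro w; simp [hx]
  have hal : ∀ (r : ℝ) (w : H), (algebraMap ℝ (H →L[ℂ] H) r) w = (r : ℂ) • w := by
    intro r w
    rw [Algebra.algebraMap_eq_smul_one]
    simp
  have h : x * algebraMap ℝ (H →L[ℂ] H) μ = A * x := by
    ext w
    rw [ContinuousLinearMap.mul_apply, ContinuousLinearMap.mul_apply, hal, map_smul, hxw,
      map_smul, hv, smul_comm]
  have h1 := semiconj_cfc h (IsSelfAdjoint.algebraMap _ (.all _)) hA hf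
  rw [cfc_algebraMap] at h1
  have h2 := congrArg (fun z : H →L[ℂ] H => z v) h1
  simp only [ContinuousLinearMap.mul_apply] at h2
  rw [hal, map_smul, hxw, map_smul, smul_comm] at h2
  have h3 : ⟪v, v⟫_ℂ ≠ 0 := inner_self_ne_zero.mpr hv0
  exact (smul_right_injective H h3 h2).symm

lemma compact_of_approx {x : H →L[ℂ] H}
    (h : ∀ ε > 0, ∃ y : H →L[ℂ] H, IsCompactOperator y ∧ ‖x - y‖ ≤ ε) : IsCompactOperator x := by
  have hcl : IsClosed {f : H →L[ℂ] H | IsCompactOperator f} := isClosed_setOfPred_isCompactOperator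
  have : x ∈ closure {f : H →L[ℂ] H | IsCompactOperator f} := by
    rw [Metric.mem_closure_iff]
    intro ε hε
    obtain ⟨y, hy, hxy⟩ := h (ε / 2) (by positivity)
    exact ⟨y, hy, by rw [dist_eq_norm]; linarith⟩
  rw [hcl.closure_eq] at this
  exact this

lemma compact_mul_right {x : H →L[ℂ] H} (hx : IsCompactOperator x) (y : H →L[ℂ] H) :
    IsCompactOperator (x * y : H →L[ℂ] H) := hx.comp_clm y

lemma compact_mul_left {x : H →L[ℂ] H} (hx : IsCompactOperator x) (y : H →L[ℂ] H) :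
    IsCompactOperator (y * x : H →L[ℂ] H) := hx.clm_comp y

lemma compact_cfc {A : H →L[ℂ] H} (hA : IsSelfAdjoint A) (hc : IsCompactOperator A)
    {f : ℝ → ℝ} (hf : Continuous f) (h0 : f 0 = 0) : IsCompactOperator (cfc f A : H →L[ℂ] H) := by
  apply compact_of_approx
  intro ε hε
  set M : ℝ := ‖A‖ * ‖(1 : H →L[ℂ] H)‖ with hM
  have hM0 : 0 ≤ M := by positivity
  have hε2 : 0 < ε / (2 * (‖(1 : H →L[ℂ] H)‖ + 1)) := by positivity
  obtain ⟨q, hq⟩ := exists_polynomial_near_of_continuousOn (-M) M f hf.continuousOn _ hε2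
  have h1 := exists_poly le_rfl hA hf hq hε2
  refine ⟨A * Polynomial.aeval A q.divX, compact_mul_right hc _, ?_⟩
  have e : Polynomial.aeval A q = A * Polynomial.aeval A q.divX +
      algebraMap ℝ (H →L[ℂ] H) (q.eval 0) := by
    conv_lhs => rw [← Polynomial.X_mul_divX_add q]
    rw [map_add, map_mul, Polynomial.aeval_X, Polynomial.aeval_C, Polynomial.coeff_zero_eq_eval_zero]
  have h2 : cfc f A - A * Polynomial.aeval A q.divX =
      (cfc f A - Polynomial.aeval A q) + algebraMap ℝ (H →L[ℂ] H) (q.eval 0) := by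
    rw [e]; abel
  rw [h2]
  have h3 : |q.eval 0| ≤ ε / (2 * (‖(1 : H →L[ℂ] H)‖ + 1)) := by
    have := hq 0 ⟨by linarith, hM0⟩
    rw [h0, sub_zero] at this
    exact this.le
  calc ‖(cfc f A - Polynomial.aeval A q) + algebraMap ℝ (H →L[ℂ] H) (q.eval 0)‖
      ≤ ‖cfc f A - Polynomial.aeval A q‖ + ‖algebraMap ℝ (H →L[ℂ] H) (q.eval 0)‖ := norm_add_le _ _
    _ ≤ ε / (2 * (‖(1 : H →L[ℂ] H)‖ + 1)) +
        (ε / (2 * (‖(1 : H →L[ℂ] H)‖ + 1))) * ‖(1 : H →L[ℂ] H)‖ := by
        apply add_le_add h1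
        rw [norm_algebraMap, Real.norm_eq_abs]
        gcongr
    _ = ε / 2 := by
        field_simp
        ring
    _ ≤ ε := by linarith

lemma compact_rank_one (v w : H) : IsCompactOperator ((innerSL ℂ v).smulRight w : H →L[ℂ] H) := by
  have h1 : IsCompactOperator (innerSL ℂ v : H →L[ℂ] ℂ) :=
    isCompactOperator_of_locallyCompactSpace_dom (innerSL ℂ v : H →L[ℂ] ℂ)
  have h2 := h1.clm_comp (ContinuousLinearMap.toSpanSingleton ℂ w)
  exact h2

lemma compact_sum {s : Finset κ} {x : κ → H →L[ℂ] H} (h : ∀ k ∈ s, IsCompactOperator (x k)) :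
    IsCompactOperator (∑ k ∈ s, x k : H →L[ℂ] H) := by
  classical
  induction s using Finset.induction_on with
  | empty => rw [Finset.sum_empty]; exact isCompactOperator_zero
  | insert a s ha ih =>
    rw [Finset.sum_insert ha]
    exact (h a (Finset.mem_insert_self _ _)).add
      (ih fun k hk => h k (Finset.mem_insert_of_mem hk))

/-- truncation of an operator to finitely many basis vectors -/
noncomputable def cut (f : HilbertBasis ι ℂ H) (s : Finset ι) (x : H →L[ℂ] H) : H →L[ℂ] H :=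
  ∑ i ∈ s, (innerSL ℂ (f i)).smulRight (x (f i))

lemma cut_apply [DecidableEq ι] (f : HilbertBasis ι ℂ H) (s : Finset ι) (x : H →L[ℂ] H) (j : ι) :
    cut f s x (f j) = if j ∈ s then x (f j) else 0 := by
  unfold cut
  rw [ContinuousLinearMap.sum_apply]
  have : ∀ i ∈ s, ((innerSL ℂ (f i)).smulRight (x (f i)) : H →L[ℂ] H) (f j) =
      if i = j then x (f j) else 0 := by
    intro i _
    rw [ContinuousLinearMap.smulRight_apply, innerSL_apply_apply,
      orthonormal_iff_ite.mp f.orthonormal i j]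
    split_ifs with h
    · rw [h, one_smul]
    · rw [zero_smul]
  rw [Finset.sum_congr rfl this, Finset.sum_ite_eq']

lemma hsn_sub_cut (f : HilbertBasis ι ℂ H) (s : Finset ι) (x : H →L[ℂ] H) :
    hsn f (x - cut f s x) = ∑' i : {i // i ∉ s}, ENNReal.ofReal (‖x (f i)‖ ^ 2) := by
  classical
  unfold hsn
  have h1 : ∀ i, ENNReal.ofReal (‖(x - cut f s x) (f i)‖ ^ 2) =
      ({i | i ∉ s} : Set ι).indicator (fun i => ENNReal.ofReal (‖x (f i)‖ ^ 2)) i := by
    intro i
    rw [ContinuousLinearMap.sub_apply, cut_apply]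
    by_cases hi : i ∈ s
    · simp [hi]
    · simp [hi]
  simp_rw [h1]
  exact (tsum_subtype ({i | i ∉ s} : Set ι) (fun i => ENNReal.ofReal (‖x (f i)‖ ^ 2))).symm

lemma compact_of_hsn (f : HilbertBasis ι ℂ H) {x : H →L[ℂ] H} (h : hsn f x ≠ ⊤) :
    IsCompactOperator x := by
  apply compact_of_approx
  intro ε hε
  have ht := ENNReal.tendsto_tsum_compl_atTop_zero (f := fun j => ENNReal.ofReal (‖x (f j)‖ ^ 2)) h
  have hε2 : (0 : ℝ≥0∞) < ENNReal.ofReal (ε ^ 2) := ENNReal.ofReal_pos.mpr (by positivity)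
  obtain ⟨s, hs⟩ := ((tendsto_order.1 ht).2 _ hε2).exists
  refine ⟨cut f s x, compact_sum fun k _ => compact_rank_one _ _, ?_⟩
  have h1 := norm_sq_opNorm_le_hsn f (x - cut f s x)
  rw [hsn_sub_cut] at h1
  have h2 : ENNReal.ofReal (‖x - cut f s x‖ ^ 2) < ENNReal.ofReal (ε ^ 2) := lt_of_le_of_lt h1 hs
  rw [ENNReal.ofReal_lt_ofReal_iff (by positivity)] at h2
  exact (abs_lt_of_sq_lt_sq h2 hε.le |>.le |> (le_abs_self _).trans)

/-- Eigenbasis of a compact positive operator. -/
theorem exists_eigenbasis {A : H →L[ℂ] H} (hA : 0 ≤ A) (hc : IsCompactOperator A) :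
    ∃ (ι : Type u) (f : HilbertBasis ι ℂ H) (α : ι → ℝ),
      (∀ i, 0 ≤ α i) ∧ ∀ i, A (f i) = (α i : ℂ) • f i := by
  classical
  have hsym : (A : H →ₗ[ℂ] H).IsSymmetric := by
    intro v w
    have := inner_star_left A v w
    rw [star_of_nonneg hA] at this
    exact this
  have hbot := ContinuousLinearMap.orthogonalComplement_iSup_eigenspaces_eq_bot (T := A) hc hsym
  let E : ℂ → Submodule ℂ H := fun μ => Module.End.eigenspace (A : H →ₗ[ℂ] H) μ
  have hEc : ∀ μ, IsClosed (E μ : Set H) := by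
    intro μ
    have : (E μ : Set H) = {v | A v = μ • v} := by
      ext v
      exact Module.End.mem_eigenspace_iff
    rw [this]
    exact isClosed_eq A.continuous (continuous_const_smul μ)
  have : ∀ μ, CompleteSpace (E μ) := fun μ => (hEc μ).completeSpace_coe
  choose w b hb using fun μ => exists_hilbertBasis ℂ (E μ)
  have hof := hsym.orthogonalFamily_eigenspaces
  have hon := hof.orthonormal_sigma_orthonormal (α := fun μ => w μ)
    (v_family := fun μ i => b μ i) (fun μ => (b μ).orthonormal)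
  let v : (Σ μ : ℂ, w μ) → H := fun a => (b a.1 a.2 : H)
  have hon' : Orthonormal ℂ v := hon
  have hsp : (Submodule.span ℂ (Set.range v))ᗮ = ⊥ := by
    rw [eq_bot_iff]
    intro z hz
    have hz1 : ∀ μ (i : w μ), ⟪(b μ i : H), z⟫_ℂ = 0 := by
      intro μ i
      rw [Submodule.mem_orthogonal] at hz
      exact hz _ (Submodule.subset_span ⟨⟨μ, i⟩, rfl⟩)
    have hz2 : z ∈ (⨆ μ, Module.End.eigenspace (A : H →ₗ[ℂ] H) μ)ᗮ := by
      rw [Submodule.mem_orthogonal]
      intro y hy
      induction hy using Submodule.iSup_induction' with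
      | mem μ y hy =>
        have hs := (b μ).hasSum_repr ⟨y, hy⟩
        have hs1 : HasSum (fun i => ((b μ).repr ⟨y, hy⟩ i) • ((b μ i : E μ) : H)) y := by
          have := hs.mapL (E μ).subtypeL
          simpa using this
        have hs2 : HasSum (fun i => (innerSL ℂ z) (((b μ).repr ⟨y, hy⟩ i) • ((b μ i : E μ) : H)))
          ((innerSL ℂ z) y) := hs1.mapL (innerSL ℂ z)
        have hs3 : ∀ i, (innerSL ℂ z) (((b μ).repr ⟨y, hy⟩ i) • ((b μ i : E μ) : H)) = 0 := by
          intro i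
          rw [map_smul, innerSL_apply_apply, ← inner_conj_symm, hz1 μ i]
          simp
        simp_rw [hs3] at hs2
        have hs4 : (innerSL ℂ z) y = 0 := hs2.unique hasSum_zero
        rw [innerSL_apply_apply] at hs4
        rw [← inner_conj_symm, hs4, map_zero]
      | zero => rw [inner_zero_left]
      | add y1 y2 _ _ h1 h2 => rw [inner_add_left, h1, h2, add_zero]
    rw [hbot] at hz2
    exact hz2
  let f := HilbertBasis.mkOfOrthogonalEqBot hon' hsp
  have hf : ∀ a, f a = v a := by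
    intro a
    rw [HilbertBasis.coe_mkOfOrthogonalEqBot]
  have hAf : ∀ a, A (f a) = a.1 • f a := by
    intro a
    rw [hf]
    exact Module.End.mem_eigenspace_iff.mp (b a.1 a.2).2
  refine ⟨(Σ μ : ℂ, w μ), f, fun a => (⟪f a, A (f a)⟫_ℂ).re, fun a => inner_nonneg hA _, ?_⟩
  intro a
  have h1 : ⟪f a, A (f a)⟫_ℂ = a.1 := by
    rw [hAf, inner_smul_right, orthonormal_iff_ite.mp f.orthonormal a a]
    simp
  have h2 : (((⟪f a, A (f a)⟫_ℂ).re : ℝ) : ℂ) = ⟪f a, A (f a)⟫_ℂ := by
    apply Complex.conj_eq_iff_re.mp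
    rw [inner_conj_symm]
    exact hsym _ _
  rw [h2, h1]
  exact hAf a

end Pool.Agent.H44.Sch
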