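import Pool.Agent.H44.Sch.Pw

/-!
Jensen inequalities with a remainder, and the resulting convexity or concavity of the trace of a
power, with the case of equality.
-/

set_option autoImplicit false
open scoped NNReal ENNReal InnerProductSpace
open ContinuousLinearMap Filter Topology

namespace Pool.Agent.H44.Sch
set_option linter.unusedSectionVars false
set_option linter.deprecated false

open Pool.Agent.H53 (inner_star_left inner_star_right normsq_eq)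

universe u
variable {H : Type u} [NormedAddCommGroup H] [InnerProductSpace ℂ H] [CompleteSpace H]
variable {ι κ : Type*}

/-- scalar inequality, exponent above one -/
lemma scalar_gt {s t μ : ℝ} (hs : 1 < s) (ht : 0 ≤ t) (hμ : 0 ≤ μ) :
    μ ^ s + s * μ ^ (s - 1) * (t - μ) +
      min 1 (s - 1) * ((t ^ (s / 2) - μ ^ (s / 2)) * (t ^ (s / 2) - μ ^ (s / 2))) ≤ t ^ s := by
  set c := min 1 (s - 1) with hc
  have hc0 : 0 ≤ c := le_min (by norm_num) (by linarith)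
  have hc1 : c ≤ 1 := min_le_left _ _
  have hc2 : c ≤ s - 1 := min_le_right _ _
  have hsq : ∀ x : ℝ, 0 ≤ x → x ^ (s / 2) * x ^ (s / 2) = x ^ s := by
    intro x hx
    rw [← Real.rpow_add_of_nonneg hx (by linarith) (by linarith), add_halves]
  rcases hμ.eq_or_lt with h0 | hμ'
  · rw [← h0, Real.zero_rpow (by linarith : s ≠ 0), Real.zero_rpow (by linarith : s - 1 ≠ 0),
      Real.zero_rpow (by linarith : s / 2 ≠ 0)]
    have := hsq t ht
    have h1 : 0 ≤ t ^ s := Real.rpow_nonneg ht _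
    nlinarith
  rcases ht.eq_or_lt with h0 | ht'
  · rw [← h0, Real.zero_rpow (by linarith : s ≠ 0), Real.zero_rpow (by linarith : s / 2 ≠ 0)]
    have h1 := hsq μ hμ
    have h2 : μ ^ (s - 1) * μ = μ ^ s := by
      rw [← Real.rpow_add_one hμ'.ne', sub_add_cancel]
    have h3 : 0 ≤ μ ^ s := Real.rpow_nonneg hμ _
    have h4 : μ ^ s + s * μ ^ (s - 1) * (0 - μ) + c * ((0 - μ ^ (s / 2)) * (0 - μ ^ (s / 2))) =
        (1 - s + c) * μ ^ s := by
      have : μ ^ s + s * μ ^ (s - 1) * (0 - μ) + c * ((0 - μ ^ (s / 2)) * (0 - μ ^ (s / 2))) =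
        μ ^ s - s * (μ ^ (s - 1) * μ) + c * (μ ^ (s / 2) * μ ^ (s / 2)) := by ring
      rw [this, h1, h2]; ring
    rw [h4]
    nlinarith
  have hs0 : 0 < s := by linarith
  have key := Real.geom_mean_le_arith_mean3_weighted (w₁ := (1 - c) / s) (w₂ := 2 * c / s)
    (w₃ := (s - 1 - c) / s) (p₁ := t ^ s) (p₂ := t ^ (s / 2) * μ ^ (s / 2)) (p₃ := μ ^ s)
    (div_nonneg (by linarith) hs0.le) (div_nonneg (by linarith) hs0.le)
    (div_nonneg (by linarith) hs0.le) (by positivity) (by positivity) (by positivity)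
    (by field_simp; ring)
  have e1 : (t ^ s) ^ ((1 - c) / s) * (t ^ (s / 2) * μ ^ (s / 2)) ^ (2 * c / s) *
      (μ ^ s) ^ ((s - 1 - c) / s) = t * μ ^ (s - 1) := by
    rw [Real.mul_rpow (by positivity) (by positivity), ← Real.rpow_mul ht, ← Real.rpow_mul ht,
      ← Real.rpow_mul hμ, ← Real.rpow_mul hμ]
    have a1 : s * ((1 - c) / s) = 1 - c := by field_simp
    have a2 : s / 2 * (2 * c / s) = c := by field_simp
    have a3 : s * ((s - 1 - c) / s) = s - 1 - c := by field_simp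
    rw [a1, a2, a3]
    calc t ^ (1 - c) * (t ^ c * μ ^ c) * μ ^ (s - 1 - c)
        = (t ^ (1 - c) * t ^ c) * (μ ^ c * μ ^ (s - 1 - c)) := by ring
      _ = t ^ (1 - c + c) * μ ^ (c + (s - 1 - c)) := by
          rw [← Real.rpow_add ht', ← Real.rpow_add hμ']
      _ = t * μ ^ (s - 1) := by
          rw [show 1 - c + c = 1 by ring, show c + (s - 1 - c) = s - 1 by ring, Real.rpow_one]
  rw [e1] at key
  have key2 : s * (t * μ ^ (s - 1)) ≤
      (1 - c) * t ^ s + 2 * c * (t ^ (s / 2) * μ ^ (s / 2)) + (s - 1 - c) * μ ^ s := by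
    calc s * (t * μ ^ (s - 1)) ≤ s * ((1 - c) / s * t ^ s +
        2 * c / s * (t ^ (s / 2) * μ ^ (s / 2)) + (s - 1 - c) / s * μ ^ s) := by gcongr
      _ = _ := by field_simp
  have h1 := hsq t ht
  have h1' := hsq μ hμ
  have h2 : μ ^ (s - 1) * μ = μ ^ s := by
    rw [← Real.rpow_add_one hμ'.ne', sub_add_cancel]
  have h5 : μ ^ s + s * μ ^ (s - 1) * (t - μ) +
      c * ((t ^ (s / 2) - μ ^ (s / 2)) * (t ^ (s / 2) - μ ^ (s / 2))) =
      μ ^ s + s * (t * μ ^ (s - 1)) - s * (μ ^ (s - 1) * μ) +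
      c * (t ^ (s / 2) * t ^ (s / 2) - 2 * (t ^ (s / 2) * μ ^ (s / 2)) +
        μ ^ (s / 2) * μ ^ (s / 2)) := by ring
  rw [h5, h1, h1', h2]
  linarith

/-- scalar inequality, exponent below one -/
lemma scalar_lt {s t μ : ℝ} (hs0 : 0 < s) (hs : s < 1) (ht : 0 ≤ t) (hμ : 0 < μ) :
    t ^ s ≤ μ ^ s + s * μ ^ (s - 1) * (t - μ) -
      (min s (1 - s) * μ ^ (s - 1)) *
        ((t ^ ((1 : ℝ) / 2) - μ ^ ((1 : ℝ) / 2)) * (t ^ ((1 : ℝ) / 2) - μ ^ ((1 : ℝ) / 2))) := by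
  set c := min s (1 - s) with hc
  have hc0 : 0 ≤ c := le_min hs0.le (by linarith)
  have hc1 : c ≤ s := min_le_left _ _
  have hc2 : c ≤ 1 - s := min_le_right _ _
  have hsq : ∀ x : ℝ, 0 ≤ x → x ^ ((1 : ℝ) / 2) * x ^ ((1 : ℝ) / 2) = x := by
    intro x hx
    rw [← Real.rpow_add_of_nonneg hx (by norm_num) (by norm_num), add_halves, Real.rpow_one]
  have h2 : μ ^ (s - 1) * μ = μ ^ s := by
    rw [← Real.rpow_add_one hμ.ne', sub_add_cancel]
  have h1' := hsq μ hμ.le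
  have h3 : 0 < μ ^ s := Real.rpow_pos_of_pos hμ _
  have h6 : 0 < μ ^ (s - 1) := Real.rpow_pos_of_pos hμ _
  rcases ht.eq_or_lt with h0 | ht'
  · rw [← h0, Real.zero_rpow hs0.ne', Real.zero_rpow (by norm_num : (1 : ℝ) / 2 ≠ 0)]
    have : μ ^ s + s * μ ^ (s - 1) * (0 - μ) -
        (c * μ ^ (s - 1)) * ((0 - μ ^ ((1 : ℝ) / 2)) * (0 - μ ^ ((1 : ℝ) / 2))) =
        μ ^ s - s * (μ ^ (s - 1) * μ) -
        (c * μ ^ (s - 1)) * (μ ^ ((1 : ℝ) / 2) * μ ^ ((1 : ℝ) / 2)) := by ring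
    rw [this, h1']
    have h4 : c * μ ^ (s - 1) * μ = c * μ ^ s := by rw [mul_assoc, h2]
    rw [h2, h4]
    nlinarith
  have key := Real.geom_mean_le_arith_mean3_weighted (w₁ := s - c) (w₂ := 2 * c)
    (w₃ := 1 - s - c) (p₁ := t) (p₂ := t ^ ((1 : ℝ) / 2) * μ ^ ((1 : ℝ) / 2)) (p₃ := μ)
    (by linarith) (by linarith) (by linarith) ht (by positivity) hμ.le (by ring)
  have e1 : t ^ (s - c) * (t ^ ((1 : ℝ) / 2) * μ ^ ((1 : ℝ) / 2)) ^ (2 * c) *
      μ ^ (1 - s - c) = t ^ s * μ ^ (1 - s) := by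
    rw [Real.mul_rpow (by positivity) (by positivity), ← Real.rpow_mul ht, ← Real.rpow_mul hμ.le]
    have a2 : (1 : ℝ) / 2 * (2 * c) = c := by ring
    rw [a2]
    calc t ^ (s - c) * (t ^ c * μ ^ c) * μ ^ (1 - s - c)
        = (t ^ (s - c) * t ^ c) * (μ ^ c * μ ^ (1 - s - c)) := by ring
      _ = t ^ (s - c + c) * μ ^ (c + (1 - s - c)) := by
          rw [← Real.rpow_add ht', ← Real.rpow_add hμ]
      _ = t ^ s * μ ^ (1 - s) := by
          rw [show s - c + c = s by ring, show c + (1 - s - c) = 1 - s by ring]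
  rw [e1] at key
  have h7 : μ ^ (1 - s) * μ ^ (s - 1) = 1 := by
    rw [← Real.rpow_add hμ]; norm_num
  have h8 : t ^ s ≤ ((s - c) * t + 2 * c * (t ^ ((1 : ℝ) / 2) * μ ^ ((1 : ℝ) / 2)) +
      (1 - s - c) * μ) * μ ^ (s - 1) := by
    calc t ^ s = t ^ s * μ ^ (1 - s) * μ ^ (s - 1) := by rw [mul_assoc, h7, mul_one]
      _ ≤ _ := by gcongr
  refine h8.trans (le_of_eq ?_)
  have h1 := hsq t ht
  have h5 : μ ^ s + s * μ ^ (s - 1) * (t - μ) -
      (c * μ ^ (s - 1)) *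
        ((t ^ ((1 : ℝ) / 2) - μ ^ ((1 : ℝ) / 2)) * (t ^ ((1 : ℝ) / 2) - μ ^ ((1 : ℝ) / 2))) =
      μ ^ s + s * μ ^ (s - 1) * t - s * (μ ^ (s - 1) * μ) -
      (c * μ ^ (s - 1)) * (t ^ ((1 : ℝ) / 2) * t ^ ((1 : ℝ) / 2) -
        2 * (t ^ ((1 : ℝ) / 2) * μ ^ ((1 : ℝ) / 2)) + μ ^ ((1 : ℝ) / 2) * μ ^ ((1 : ℝ) / 2)) := by
    ring
  rw [h5, h1, h1']
  have h9 : μ ^ s = μ ^ (s - 1) * μ := h2.symm
  rw [h9]
  ring

section
variable {A : H →L[ℂ] H} (hA : 0 ≤ A) {v : H} (hv : ‖v‖ = 1)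
include hA hv

/-- Jensen with remainder, exponent above one, tangent at any point. -/
lemma jensen_gt {s μ : ℝ} (hs : 1 < s) (hμ : 0 ≤ μ) :
    μ ^ s + s * μ ^ (s - 1) * ((⟪v, A v⟫_ℂ).re - μ) +
      min 1 (s - 1) * ‖(cfc (fun t : ℝ => t ^ (s / 2) - μ ^ (s / 2)) A) v‖ ^ 2 ≤
      (⟪v, pw s A v⟫_ℂ).re := by
  have hc1 : Continuous (fun t : ℝ => t ^ (s / 2) - μ ^ (s / 2)) :=
    (cont_pw (by linarith)).sub continuous_const
  have hc2 : Continuous (fun t : ℝ => s * μ ^ (s - 1) * (t - μ)) := by fun_prop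
  have hc3 : Continuous (fun t : ℝ => min 1 (s - 1) *
      ((t ^ (s / 2) - μ ^ (s / 2)) * (t ^ (s / 2) - μ ^ (s / 2)))) :=
    continuous_const.mul (hc1.mul hc1)
  have hc4 : Continuous (fun t : ℝ => μ ^ s + s * μ ^ (s - 1) * (t - μ)) :=
    continuous_const.add hc2
  have h := ev_mono hA v (f := fun t => μ ^ s + s * μ ^ (s - 1) * (t - μ) +
    min 1 (s - 1) * ((t ^ (s / 2) - μ ^ (s / 2)) * (t ^ (s / 2) - μ ^ (s / 2))))
    (g := fun t => t ^ s) (hc4.add hc3) (cont_pw (by linarith))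
    (fun t ht => scalar_gt hs ht hμ)
  rw [ev_add hA v hc4 hc3, ev_add hA v continuous_const hc2, ev_const hA,
    ev_mul_left hA v _ (by fun_prop), ev_sub hA v continuous_id' continuous_const, ev_id hA,
    ev_const hA, ev_mul_left hA v (f := fun t : ℝ => (t ^ (s / 2) - μ ^ (s / 2)) *
      (t ^ (s / 2) - μ ^ (s / 2))) _ (hc1.mul hc1), ← norm_sq_cfc hA v hc1, hv] at h
  simpa [ev, pw] using h

/-- Jensen with remainder, exponent below one, tangent at any positive point. -/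
lemma jensen_lt {s μ : ℝ} (hs0 : 0 < s) (hs : s < 1) (hμ : 0 < μ) :
    (⟪v, pw s A v⟫_ℂ).re + (min s (1 - s) * μ ^ (s - 1)) *
      ‖(cfc (fun t : ℝ => t ^ ((1 : ℝ) / 2) - μ ^ ((1 : ℝ) / 2)) A) v‖ ^ 2 ≤
    μ ^ s + s * μ ^ (s - 1) * ((⟪v, A v⟫_ℂ).re - μ) := by
  have hc1 : Continuous (fun t : ℝ => t ^ ((1 : ℝ) / 2) - μ ^ ((1 : ℝ) / 2)) :=
    (cont_pw (by norm_num)).sub continuous_const
  have hc2 : Continuous (fun t : ℝ => s * μ ^ (s - 1) * (t - μ)) := by fun_prop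
  have hc3 : Continuous (fun t : ℝ => (min s (1 - s) * μ ^ (s - 1)) *
      ((t ^ ((1 : ℝ) / 2) - μ ^ ((1 : ℝ) / 2)) * (t ^ ((1 : ℝ) / 2) - μ ^ ((1 : ℝ) / 2)))) :=
    continuous_const.mul (hc1.mul hc1)
  have hc4 : Continuous (fun t : ℝ => μ ^ s + s * μ ^ (s - 1) * (t - μ)) :=
    continuous_const.add hc2
  have h := ev_mono hA v (f := fun t => t ^ s)
    (g := fun t => μ ^ s + s * μ ^ (s - 1) * (t - μ) - (min s (1 - s) * μ ^ (s - 1)) *
      ((t ^ ((1 : ℝ) / 2) - μ ^ ((1 : ℝ) / 2)) * (t ^ ((1 : ℝ) / 2) - μ ^ ((1 : ℝ) / 2))))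
    (cont_pw hs0.le) (hc4.sub hc3) (fun t ht => scalar_lt hs0 hs ht hμ)
  rw [ev_sub hA v hc4 hc3, ev_add hA v continuous_const hc2, ev_const hA,
    ev_mul_left hA v (s * μ ^ (s - 1)) (by fun_prop), ev_sub hA v continuous_id' continuous_const,
    ev_id hA, ev_const hA, ev_mul_left hA v (f := fun t : ℝ => (t ^ ((1 : ℝ) / 2) -
      μ ^ ((1 : ℝ) / 2)) * (t ^ ((1 : ℝ) / 2) - μ ^ ((1 : ℝ) / 2))) _ (hc1.mul hc1),
    ← norm_sq_cfc hA v hc1, hv] at h
  simp only [one_pow, mul_one] at h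
  change _ + _ ≤ _
  have : (⟪v, pw s A v⟫_ℂ).re = ev A v (fun t => t ^ s) := rfl
  rw [this]
  linarith

end

/-- plain Jensen, exponent at least one -/
lemma jensen_ge {A : H →L[ℂ] H} (hA : 0 ≤ A) {v : H} (hv : ‖v‖ = 1) {s : ℝ} (hs : 1 ≤ s) :
    (⟪v, A v⟫_ℂ).re ^ s ≤ (⟪v, pw s A v⟫_ℂ).re := by
  rcases hs.eq_or_lt with h1 | h1
  · rw [← h1, Real.rpow_one, pw_one hA]
  · have h := jensen_gt hA hv h1 (inner_nonneg hA v)
    have h2 : 0 ≤ min 1 (s - 1) * ‖(cfc (fun t : ℝ => t ^ (s / 2) -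
        (⟪v, A v⟫_ℂ).re ^ (s / 2)) A) v‖ ^ 2 :=
      mul_nonneg (le_min (by norm_num) (by linarith)) (by positivity)
    rw [sub_self, mul_zero, add_zero] at h
    linarith

lemma cfc_sub_const_apply {A : H →L[ℂ] H} (hA : 0 ≤ A) {r : ℝ} (hr : 0 ≤ r) (c : ℝ) (v : H) :
    (cfc (fun t : ℝ => t ^ r - c) A) v = pw r A v - (c : ℂ) • v := by
  rw [cfc_sub (a := A) (fun t : ℝ => t ^ r) (fun _ => c) (cont_pw hr).continuousOn
    continuous_const.continuousOn, cfc_const c A (IsSelfAdjoint.of_nonneg hA),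
    Algebra.algebraMap_eq_smul_one]
  simp [pw]

section trace

variable {β : Type*} (b : HilbertBasis β ℂ H)

/-- Convexity of the trace of a power with the case of equality. -/
lemma trace_jensen_gt {s : ℝ} (hs : 1 < s) {A B N : H →L[ℂ] H} (hA : 0 ≤ A) (hB : 0 ≤ B)
    (hN : 0 ≤ N) (hABN : A + B = N + N) (hc : IsCompactOperator N) :
    tr b (pw s N) + tr b (pw s N) ≤ tr b (pw s A) + tr b (pw s B) ∧
    (tr b (pw s A) + tr b (pw s B) ≤ tr b (pw s N) + tr b (pw s N) → tr b (pw s N) ≠ ⊤ →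
      A = B) := by
  obtain ⟨ι, f, ν, hν, hf⟩ := exists_eigenbasis hN hc
  have hs0 : 0 ≤ s := by linarith
  rw [tr_eq b f (pw_nonneg s hA), tr_eq b f (pw_nonneg s hB), tr_eq b f (pw_nonneg s hN)]
  set c := min 1 (s - 1) with hcdef
  have hc0 : 0 < c := lt_min (by norm_num) (by linarith)
  let δA : ι → ℝ := fun i => ‖(cfc (fun t : ℝ => t ^ (s / 2) - ν i ^ (s / 2)) A) (f i)‖ ^ 2
  let δB : ι → ℝ := fun i => ‖(cfc (fun t : ℝ => t ^ (s / 2) - ν i ^ (s / 2)) B) (f i)‖ ^ 2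
  have hδA : ∀ i, 0 ≤ δA i := fun i => by positivity
  have hδB : ∀ i, 0 ≤ δB i := fun i => by positivity
  have hone : ∀ i, ‖f i‖ = 1 := f.orthonormal.1
  have hsum : ∀ i, (⟪f i, A (f i)⟫_ℂ).re + (⟪f i, B (f i)⟫_ℂ).re = 2 * ν i := by
    intro i
    rw [← Complex.add_re, ← inner_add_right, ← ContinuousLinearMap.add_apply, hABN,
      ContinuousLinearMap.add_apply, hf, inner_add_right, inner_smul_right, inner_self_basis]
    simp
    ring
  have hreal : ∀ i, (ν i ^ s + ν i ^ s) + c * (δA i + δB i) ≤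
      (⟪f i, pw s A (f i)⟫_ℂ).re + (⟪f i, pw s B (f i)⟫_ℂ).re := by
    intro i
    have h1 := jensen_gt hA (hone i) hs (hν i)
    have h2 := jensen_gt hB (hone i) hs (hν i)
    have h3 := hsum i
    have h4 : s * ν i ^ (s - 1) * ((⟪f i, A (f i)⟫_ℂ).re - ν i) +
        s * ν i ^ (s - 1) * ((⟪f i, B (f i)⟫_ℂ).re - ν i) = 0 := by
      rw [← mul_add]
      have : (⟪f i, A (f i)⟫_ℂ).re - ν i + ((⟪f i, B (f i)⟫_ℂ).re - ν i) = 0 := by linarith
      rw [this, mul_zero]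
    simp only [δA, δB]
    linarith
  have hE : ∀ i, ENNReal.ofReal (ν i ^ s) + ENNReal.ofReal (ν i ^ s) +
      ENNReal.ofReal (c * (δA i + δB i)) ≤ ENNReal.ofReal (⟪f i, pw s A (f i)⟫_ℂ).re +
        ENNReal.ofReal (⟪f i, pw s B (f i)⟫_ℂ).re := by
    intro i
    have hn : 0 ≤ ν i ^ s := Real.rpow_nonneg (hν i) _
    have hn2 : 0 ≤ c * (δA i + δB i) := mul_nonneg hc0.le (add_nonneg (hδA i) (hδB i))
    rw [← ENNReal.ofReal_add hn hn, ← ENNReal.ofReal_add (by linarith) hn2,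
      ← ENNReal.ofReal_add (inner_nonneg (pw_nonneg s hA) _) (inner_nonneg (pw_nonneg s hB) _)]
    exact ENNReal.ofReal_le_ofReal (hreal i)
  have htot : tr f (pw s N) + tr f (pw s N) + ∑' i, ENNReal.ofReal (c * (δA i + δB i)) ≤
      tr f (pw s A) + tr f (pw s B) := by
    rw [tr_pw_eigen f hs0 hN hf]
    unfold tr
    rw [← ENNReal.tsum_add, ← ENNReal.tsum_add, ← ENNReal.tsum_add]
    exact ENNReal.tsum_le_tsum hE
  refine ⟨le_trans le_self_add htot, ?_⟩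
  intro hle hfin
  have hfin2 : tr f (pw s N) + tr f (pw s N) ≠ ⊤ := ENNReal.add_ne_top.mpr ⟨hfin, hfin⟩
  have hz : ∑' i, ENNReal.ofReal (c * (δA i + δB i)) = 0 := by
    have : tr f (pw s N) + tr f (pw s N) + ∑' i, ENNReal.ofReal (c * (δA i + δB i)) ≤
      tr f (pw s N) + tr f (pw s N) + 0 := by rw [add_zero]; exact htot.trans hle
    exact le_antisymm ((ENNReal.add_le_add_iff_left hfin2).mp this) zero_le
  rw [ENNReal.tsum_eq_zero] at hz
  have hzero : ∀ i, δA i = 0 ∧ δB i = 0 := by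
    intro i
    have h1 := hz i
    rw [ENNReal.ofReal_eq_zero] at h1
    have h2 : δA i + δB i ≤ 0 := by
      by_contra h
      push Not at h
      have := mul_pos hc0 h
      linarith
    constructor
    · linarith [hδA i, hδB i]
    · linarith [hδA i, hδB i]
  apply pw_inj (r := s / 2) (by linarith) hA hB
  apply ext_basis f
  intro i
  have h1 := (hzero i).1
  have h2 := (hzero i).2
  simp only [δA, δB] at h1 h2
  have h1' := norm_eq_zero.mp (pow_eq_zero_iff two_ne_zero |>.mp h1)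
  have h2' := norm_eq_zero.mp (pow_eq_zero_iff two_ne_zero |>.mp h2)
  rw [cfc_sub_const_apply hA (by linarith)] at h1'
  rw [cfc_sub_const_apply hB (by linarith)] at h2'
  rw [sub_eq_zero.mp h1', sub_eq_zero.mp h2']

/-- Concavity of the trace of a power with the case of equality. -/
lemma trace_jensen_lt {s : ℝ} (hs0 : 0 < s) (hs : s < 1) {A B N : H →L[ℂ] H} (hA : 0 ≤ A)
    (hB : 0 ≤ B) (hN : 0 ≤ N) (hABN : A + B = N + N) (hc : IsCompactOperator N) :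
    tr b (pw s A) + tr b (pw s B) ≤ tr b (pw s N) + tr b (pw s N) ∧
    (tr b (pw s N) + tr b (pw s N) ≤ tr b (pw s A) + tr b (pw s B) → tr b (pw s N) ≠ ⊤ →
      A = B) := by
  obtain ⟨ι, f, ν, hν, hf⟩ := exists_eigenbasis hN hc
  rw [tr_eq b f (pw_nonneg s hA), tr_eq b f (pw_nonneg s hB), tr_eq b f (pw_nonneg s hN)]
  set c := min s (1 - s) with hcdef
  have hc0 : 0 < c := lt_min hs0 (by linarith)
  let δA : ι → ℝ := fun i => ‖(cfc (fun t : ℝ => t ^ ((1 : ℝ) / 2) - ν i ^ ((1 : ℝ) / 2)) A) (f i)‖ ^ 2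
  let δB : ι → ℝ := fun i => ‖(cfc (fun t : ℝ => t ^ ((1 : ℝ) / 2) - ν i ^ ((1 : ℝ) / 2)) B) (f i)‖ ^ 2
  have hδA : ∀ i, 0 ≤ δA i := fun i => by positivity
  have hδB : ∀ i, 0 ≤ δB i := fun i => by positivity
  have hone : ∀ i, ‖f i‖ = 1 := f.orthonormal.1
  have hsum : ∀ i, (⟪f i, A (f i)⟫_ℂ).re + (⟪f i, B (f i)⟫_ℂ).re = 2 * ν i := by
    intro i
    rw [← Complex.add_re, ← inner_add_right, ← ContinuousLinearMap.add_apply, hABN,
      ContinuousLinearMap.add_apply, hf, inner_add_right, inner_smul_right, inner_self_basis]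
    simp
    ring
  -- zero expectation forces zero
  have hzv : ∀ {C : H →L[ℂ] H}, 0 ≤ C → ∀ v : H, (⟪v, C v⟫_ℂ).re = 0 → ∀ r : ℝ, 0 < r →
      pw r C v = 0 := by
    intro C hC v h r hr
    have h1 : ‖CFC.sqrt C v‖ ^ 2 = 0 := by
      rw [normsq_apply _ v (sqrt_star_mul hC), h]
    have h2 : CFC.sqrt C v = 0 := norm_eq_zero.mp (pow_eq_zero_iff two_ne_zero |>.mp h1)
    have h3 : C v = ((0 : ℝ) : ℂ) • v := by
      rw [← CFC.sqrt_mul_sqrt_self C hC, ContinuousLinearMap.mul_apply, h2]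
      simp
    rw [pw_eigen hr.le hC h3, Real.zero_rpow hr.ne']
    simp
  have hz0 : ∀ i, ν i = 0 → (⟪f i, A (f i)⟫_ℂ).re = 0 ∧ (⟪f i, B (f i)⟫_ℂ).re = 0 := by
    intro i hi
    have h1 := hsum i
    have h2 := inner_nonneg hA (f i)
    have h3 := inner_nonneg hB (f i)
    rw [hi] at h1
    constructor <;> linarith
  have hreal : ∀ i, (⟪f i, pw s A (f i)⟫_ℂ).re + (⟪f i, pw s B (f i)⟫_ℂ).re +
      (c * ν i ^ (s - 1)) * (δA i + δB i) ≤ ν i ^ s + ν i ^ s := by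
    intro i
    rcases (hν i).eq_or_lt with h0 | h0
    · have hz := hz0 i h0.symm
      rw [hzv hA _ hz.1 s hs0, hzv hB _ hz.2 s hs0, ← h0, Real.zero_rpow (by linarith : s - 1 ≠ 0),
        Real.zero_rpow hs0.ne']
      simp
    · have h1 := jensen_lt hA (hone i) hs0 hs h0
      have h2 := jensen_lt hB (hone i) hs0 hs h0
      have h3 := hsum i
      have h4 : s * ν i ^ (s - 1) * ((⟪f i, A (f i)⟫_ℂ).re - ν i) +
          s * ν i ^ (s - 1) * ((⟪f i, B (f i)⟫_ℂ).re - ν i) = 0 := by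
        rw [← mul_add]
        have : (⟪f i, A (f i)⟫_ℂ).re - ν i + ((⟪f i, B (f i)⟫_ℂ).re - ν i) = 0 := by linarith
        rw [this, mul_zero]
      simp only [δA, δB]
      linarith
  have hE : ∀ i, ENNReal.ofReal (⟪f i, pw s A (f i)⟫_ℂ).re +
        ENNReal.ofReal (⟪f i, pw s B (f i)⟫_ℂ).re +
      ENNReal.ofReal ((c * ν i ^ (s - 1)) * (δA i + δB i)) ≤
      ENNReal.ofReal (ν i ^ s) + ENNReal.ofReal (ν i ^ s) := by
    intro i
    have hn : 0 ≤ ν i ^ s := Real.rpow_nonneg (hν i) _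
    have hn3 : 0 ≤ ν i ^ (s - 1) := Real.rpow_nonneg (hν i) _
    have hn2 : 0 ≤ (c * ν i ^ (s - 1)) * (δA i + δB i) :=
      mul_nonneg (mul_nonneg hc0.le hn3) (add_nonneg (hδA i) (hδB i))
    rw [← ENNReal.ofReal_add hn hn, 
      ← ENNReal.ofReal_add (inner_nonneg (pw_nonneg s hA) _) (inner_nonneg (pw_nonneg s hB) _),
      ← ENNReal.ofReal_add (add_nonneg (inner_nonneg (pw_nonneg s hA) _)
        (inner_nonneg (pw_nonneg s hB) _)) hn2]
    exact ENNReal.ofReal_le_ofReal (hreal i)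
  have htot : tr f (pw s A) + tr f (pw s B) +
      ∑' i, ENNReal.ofReal ((c * ν i ^ (s - 1)) * (δA i + δB i)) ≤
      tr f (pw s N) + tr f (pw s N) := by
    rw [tr_pw_eigen f hs0.le hN hf]
    unfold tr
    rw [← ENNReal.tsum_add, ← ENNReal.tsum_add, ← ENNReal.tsum_add]
    exact ENNReal.tsum_le_tsum hE
  refine ⟨le_trans le_self_add htot, ?_⟩
  intro hle hfin
  have hfin2 : tr f (pw s A) + tr f (pw s B) ≠ ⊤ :=
    ne_top_of_le_ne_top (ENNReal.add_ne_top.mpr ⟨hfin, hfin⟩) (le_trans le_self_add htot)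
  have hz : ∑' i, ENNReal.ofReal ((c * ν i ^ (s - 1)) * (δA i + δB i)) = 0 := by
    have : tr f (pw s A) + tr f (pw s B) +
      ∑' i, ENNReal.ofReal ((c * ν i ^ (s - 1)) * (δA i + δB i)) ≤
      tr f (pw s A) + tr f (pw s B) + 0 := by rw [add_zero]; exact htot.trans hle
    exact le_antisymm ((ENNReal.add_le_add_iff_left hfin2).mp this) zero_le
  rw [ENNReal.tsum_eq_zero] at hz
  apply pw_inj (r := (1 : ℝ) / 2) (by norm_num) hA hB
  apply ext_basis f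
  intro i
  rcases (hν i).eq_or_lt with h0 | h0
  · have hz := hz0 i h0.symm
    rw [hzv hA _ hz.1 _ (by norm_num), hzv hB _ hz.2 _ (by norm_num)]
  · have h1 := hz i
    rw [ENNReal.ofReal_eq_zero] at h1
    have hpos : 0 < c * ν i ^ (s - 1) := mul_pos hc0 (Real.rpow_pos_of_pos h0 _)
    have h2 : δA i + δB i ≤ 0 := by
      by_contra h
      push Not at h
      have := mul_pos hpos h
      linarith
    have h3 : δA i = 0 := by linarith [hδA i, hδB i]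
    have h4 : δB i = 0 := by linarith [hδA i, hδB i]
    simp only [δA, δB] at h3 h4
    have h1' := norm_eq_zero.mp (pow_eq_zero_iff two_ne_zero |>.mp h3)
    have h2' := norm_eq_zero.mp (pow_eq_zero_iff two_ne_zero |>.mp h4)
    rw [cfc_sub_const_apply hA (by norm_num)] at h1'
    rw [cfc_sub_const_apply hB (by norm_num)] at h2'
    rw [sub_eq_zero.mp h1', sub_eq_zero.mp h2']

end trace

end Pool.Agent.H44.Sch
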