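import Pool.Agent.H44.Sch.Jensen

/-!
McCarthy inequalities for the trace of a power of a sum, and the invariance under adjoints.
-/

set_option autoImplicit false
open scoped NNReal ENNReal InnerProductSpace
open ContinuousLinearMap Filter Topology

namespace Pool.Agent.H44.Sch
set_option linter.unusedSectionVars false
set_option linter.deprecated false

open Pool.Agent.H53 (inner_star_left inner_star_right normsq_eq)

universe u
variable {H : Type u} [NormedAddCommGroup H] [InnerProductSpace ℂ H] [CompleteSpace H]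
variable {ι κ : Type*}

/-- regularised power -/
noncomputable def kk (ε r : ℝ) : ℝ → ℝ := fun t => (|t| + ε) ^ r

lemma kk_cont {ε : ℝ} (hε : 0 < ε) (r : ℝ) : Continuous (kk ε r) := by
  unfold kk
  apply Continuous.rpow_const
  · exact continuous_abs.add continuous_const
  · intro t
    left
    positivity

lemma kk_mul {ε : ℝ} (hε : 0 < ε) (r q t : ℝ) : kk ε r t * kk ε q t = kk ε (r + q) t := by
  unfold kk
  rw [← Real.rpow_add (by positivity)]

lemma kk_pos {ε : ℝ} (hε : 0 < ε) (r t : ℝ) : 0 < kk ε r t := by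
  unfold kk; positivity

lemma cfc_mul2 (T : H →L[ℂ] H) {f g : ℝ → ℝ} (hf : Continuous f) (hg : Continuous g) :
    cfc f T * cfc g T = cfc (fun t => f t * g t) T :=
  (cfc_mul f g T hf.continuousOn hg.continuousOn).symm

lemma cfc_mul3 (T : H →L[ℂ] H) {f g h : ℝ → ℝ} (hf : Continuous f) (hg : Continuous g)
    (hh : Continuous h) : cfc f T * cfc g T * cfc h T = cfc (fun t => f t * g t * h t) T := by
  rw [cfc_mul2 T hf hg, cfc_mul2 T (f := fun t => f t * g t) (hf.mul hg) hh]

/-- inverse of a regularised operator is antitone -/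
lemma inv_anti {ε : ℝ} (hε : 0 < ε) {C S : H →L[ℂ] H} (hC : 0 ≤ C) (h : C ≤ S) :
    cfc (kk ε (-1)) S ≤ cfc (kk ε (-1)) C := by
  have hS := hC.trans h
  rw [← sub_nonneg]
  apply nonneg_of_inner
  · rw [star_sub, star_cfc, star_cfc]
  intro v
  -- notation
  set X := cfc (kk ε (-1)) S with hX
  set w := X v with hw
  have hcS : Continuous (fun t : ℝ => |t| + ε) := continuous_abs.add continuous_const
  have habs : ∀ {T : H →L[ℂ] H}, 0 ≤ T → ∀ u : H, (⟪u, (cfc (fun t : ℝ => |t| + ε) T) u⟫_ℂ).re =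
      (⟪u, T u⟫_ℂ).re + ε * ‖u‖ ^ 2 := by
    intro T hT u
    have h1 : cfc (fun t : ℝ => |t| + ε) T = cfc (fun t : ℝ => t + ε) T := by
      apply cfc_congr
      intro t ht
      change |t| + ε = t + ε
      rw [abs_of_nonneg (spec_nonneg hT ht)]
    rw [h1]
    have h2 := ev_add hT u (f := fun t => t) (g := fun _ => ε) continuous_id' continuous_const
    rw [ev_id hT, ev_const hT] at h2
    exact h2
  have h1 : (cfc (fun t : ℝ => |t| + ε) S) w = v := by
    have : cfc (fun t : ℝ => |t| + ε) S * X = 1 := by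
      rw [hX, ← cfc_mul _ _ _ hcS.continuousOn (kk_cont hε _).continuousOn,
        ← cfc_one ℝ S (IsSelfAdjoint.of_nonneg hS)]
      apply cfc_congr
      intro t _
      change (|t| + ε) * (|t| + ε) ^ (-1 : ℝ) = 1
      rw [Real.rpow_neg_one, mul_inv_cancel₀ (by positivity)]
    have h2 := congrArg (fun z : H →L[ℂ] H => z v) this
    simpa using h2
  -- the square
  have h3 : 0 ≤ ‖(cfc (kk ε (1 / 2)) C) w - (cfc (kk ε (-(1 / 2))) C) v‖ ^ 2 := by positivity
  have h4 : ‖(cfc (kk ε (1 / 2)) C) w - (cfc (kk ε (-(1 / 2))) C) v‖ ^ 2 =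
      ((⟪w, C w⟫_ℂ).re + ε * ‖w‖ ^ 2) - 2 * (⟪w, v⟫_ℂ).re + (⟪v, (cfc (kk ε (-1)) C) v⟫_ℂ).re := by
    rw [@norm_sub_sq ℂ]
    have e1 : ‖(cfc (kk ε (1 / 2)) C) w‖ ^ 2 = (⟪w, C w⟫_ℂ).re + ε * ‖w‖ ^ 2 := by
      rw [norm_sq_cfc hC w (kk_cont hε _), ← habs hC w]
      unfold ev
      congr 3
      congr 1
      ext t
      rw [kk_mul hε]
      unfold kk
      norm_num
    have e2 : ‖(cfc (kk ε (-(1 / 2))) C) v‖ ^ 2 = (⟪v, (cfc (kk ε (-1)) C) v⟫_ℂ).re := by
      rw [norm_sq_cfc hC v (kk_cont hε _)]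
      unfold ev
      congr 3
      congr 1
      ext t
      rw [kk_mul hε]
      norm_num
    have e3 : ⟪(cfc (kk ε (1 / 2)) C) w, (cfc (kk ε (-(1 / 2))) C) v⟫_ℂ = ⟪w, v⟫_ℂ := by
      rw [← inner_star_right, star_cfc]
      have : cfc (kk ε (1 / 2)) C * cfc (kk ε (-(1 / 2))) C = 1 := by
        rw [← cfc_mul _ _ _ (kk_cont hε _).continuousOn (kk_cont hε _).continuousOn,
          ← cfc_one ℝ C (IsSelfAdjoint.of_nonneg hC)]
        apply cfc_congr
        intro t _
        change kk ε (1 / 2) t * kk ε (-(1 / 2)) t = 1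
        rw [kk_mul hε]
        unfold kk
        norm_num
      have h2 := congrArg (fun z : H →L[ℂ] H => z v) this
      simp only [ContinuousLinearMap.mul_apply] at h2
      rw [h2]
      simp
    rw [e1, e2, e3]
    rfl
  have h5 : (⟪v, X v⟫_ℂ).re = (⟪w, S w⟫_ℂ).re + ε * ‖w‖ ^ 2 := by
    rw [← habs hS w, h1, ← hw]
    exact (inner_re_symm (𝕜 := ℂ) _ _)
  have h6 : (⟪w, v⟫_ℂ).re = (⟪v, X v⟫_ℂ).re := by
    rw [← hw]
    exact (inner_re_symm (𝕜 := ℂ) _ _)
  have h7 := inner_mono h w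
  rw [ContinuousLinearMap.sub_apply, inner_sub_right, Complex.sub_re]
  rw [h4] at h3
  linarith

lemma kk_anti {ε r : ℝ} (hε : 0 < ε) (h0 : 0 ≤ r) (h1 : r ≤ 1) {C S : H →L[ℂ] H} (hC : 0 ≤ C)
    (h : C ≤ S) : cfc (kk ε (-r)) S ≤ cfc (kk ε (-r)) C := by
  have hS := hC.trans h
  have key : ∀ {T : H →L[ℂ] H}, 0 ≤ T → cfc (kk ε (-r)) T = pw r (cfc (kk ε (-1)) T) := by
    intro T hT
    unfold pw
    rw [← cfc_comp' (fun t : ℝ => t ^ r) (kk ε (-1)) T (cont_pw h0).continuousOn
      (kk_cont hε _).continuousOn (IsSelfAdjoint.of_nonneg hT)]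
    congr 1
    ext t
    unfold kk
    rw [← Real.rpow_mul (by positivity)]
    norm_num
  rw [key hS, key hC]
  apply pw_mono h0 h1 _ (inv_anti hε hC h)
  exact cfc_nonneg fun t _ => (kk_pos hε _ _).le

lemma tr_conj (f : HilbertBasis ι ℂ H) {C G : H →L[ℂ] H} (hC : 0 ≤ C) (hG : star G = G) :
    tr f (G * C * G) = tr f (pw (1 / 2) C * (G * G) * pw (1 / 2) C) := by
  set R := pw (1 / 2) C with hR
  have hRs : star R = R := star_pw _ _
  have hRR : R * R = C := by
    rw [hR, pw_mul (by norm_num) (by norm_num) hC]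
    norm_num
    exact pw_one hC
  have h := tr_comm f (R * G)
  rw [star_mul, hG, hRs] at h
  have e1 : G * R * (R * G) = G * C * G := by rw [← hRR]; noncomm_ring
  have e2 : R * G * (G * R) = R * (G * G) * R := by noncomm_ring
  rw [e1, e2] at h
  exact h

lemma conj_mono {R X Y : H →L[ℂ] H} (hR : star R = R) (h : X ≤ Y) : R * X * R ≤ R * Y * R := by
  have := star_left_conjugate_le_conjugate h R
  rwa [hR] at this

lemma conj_nonneg' {R X : H →L[ℂ] H} (hR : star R = R) (h : 0 ≤ X) : 0 ≤ R * X * R := by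
  have := star_left_conjugate_nonneg h R
  rwa [hR] at this

/-- scalar regularisation bounds -/
lemma reg_le {s ε t : ℝ} (hs : s < 1) (hs0 : 0 < s) (hε : 0 < ε) (ht : 0 ≤ t) :
    t * kk ε (s - 1) t ≤ t ^ s := by
  rcases ht.eq_or_lt with h0 | h0
  · rw [← h0, zero_mul, Real.zero_rpow hs0.ne']
  · unfold kk
    rw [abs_of_nonneg ht]
    have h1 : (t + ε) ^ (s - 1) ≤ t ^ (s - 1) :=
      Real.rpow_le_rpow_of_nonpos h0 (by linarith) (by linarith)
    calc t * (t + ε) ^ (s - 1) ≤ t * t ^ (s - 1) := by gcongr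
      _ = t ^ s := by
          rw [mul_comm, ← Real.rpow_add_one h0.ne', sub_add_cancel]

lemma le_reg {s ε t : ℝ} (hs : s < 1) (hs0 : 0 < s) (hε : 0 < ε) (ht : 0 ≤ t) :
    t ^ s ≤ t * kk ε (s - 1) t + ε ^ s := by
  unfold kk
  rw [abs_of_nonneg ht]
  have h1 : (t + ε) ^ (s - 1) ≤ ε ^ (s - 1) :=
    Real.rpow_le_rpow_of_nonpos hε (by linarith) (by linarith)
  have h2 : (t + ε) ^ s = (t + ε) ^ (s - 1) * (t + ε) := by
    rw [← Real.rpow_add_one (by positivity), sub_add_cancel]
  have h3 : ε ^ s = ε ^ (s - 1) * ε := by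
    rw [← Real.rpow_add_one hε.ne', sub_add_cancel]
  have h4 : t ^ s ≤ (t + ε) ^ s := Real.rpow_le_rpow ht (by linarith) hs0.le
  rw [h2] at h4
  rw [h3]
  nlinarith

lemma tr_pw_le_of_reg (b : HilbertBasis ι ℂ H) {s : ℝ} (hs0 : 0 < s) (hs : s < 1)
    {A : H →L[ℂ] H} (hA : 0 ≤ A) {K : ℝ≥0∞}
    (h : ∀ ε > 0, tr b (cfc (fun t : ℝ => t * kk ε (s - 1) t) A) ≤ K) : tr b (pw s A) ≤ K := by
  classical
  unfold tr
  rw [ENNReal.tsum_eq_iSup_sum]
  apply iSup_le
  intro F
  apply ENNReal.le_of_forall_pos_le_add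
  intro η hη _
  -- choose ε with |F| ε^s ≤ η
  set N : ℝ := (F.card : ℝ) + 1 with hN
  have hN0 : 0 < N := by positivity
  set ε : ℝ := (η / N) ^ (1 / s) with hεd
  have hη' : (0 : ℝ) < η := hη
  have hε : 0 < ε := by positivity
  have hεs : ε ^ s = η / N := by
    rw [hεd, ← Real.rpow_mul (by positivity)]
    have : 1 / s * s = 1 := by field_simp
    rw [this, Real.rpow_one]
  have hc : Continuous (fun t : ℝ => t * kk ε (s - 1) t) := continuous_id.mul (kk_cont hε _)
  have h1 : ∀ i, (⟪b i, pw s A (b i)⟫_ℂ).re ≤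
      (⟪b i, (cfc (fun t : ℝ => t * kk ε (s - 1) t) A) (b i)⟫_ℂ).re + η / N := by
    intro i
    have h2 := ev_mono hA (b i) (f := fun t => t ^ s)
      (g := fun t => t * kk ε (s - 1) t + ε ^ s) (cont_pw hs0.le) (hc.add continuous_const)
      (fun t ht => le_reg hs hs0 hε ht)
    rw [ev_add hA (b i) hc continuous_const, ev_const hA, b.orthonormal.1 i, hεs] at h2
    simpa [ev, pw] using h2
  have h3 : ∀ i, ENNReal.ofReal (⟪b i, pw s A (b i)⟫_ℂ).re ≤
      ENNReal.ofReal (⟪b i, (cfc (fun t : ℝ => t * kk ε (s - 1) t) A) (b i)⟫_ℂ).re +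
        ENNReal.ofReal (η / N) := by
    intro i
    refine (ENNReal.ofReal_le_ofReal (h1 i)).trans ENNReal.ofReal_add_le
  calc ∑ i ∈ F, ENNReal.ofReal (⟪b i, pw s A (b i)⟫_ℂ).re
      ≤ ∑ i ∈ F, (ENNReal.ofReal
          (⟪b i, (cfc (fun t : ℝ => t * kk ε (s - 1) t) A) (b i)⟫_ℂ).re +
          ENNReal.ofReal (η / N)) := Finset.sum_le_sum fun i _ => h3 i
    _ = ∑ i ∈ F, ENNReal.ofReal
          (⟪b i, (cfc (fun t : ℝ => t * kk ε (s - 1) t) A) (b i)⟫_ℂ).re +
          F.card * ENNReal.ofReal (η / N) := by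
        rw [Finset.sum_add_distrib, Finset.sum_const, nsmul_eq_mul]
    _ ≤ K + η := by
        apply add_le_add
        · exact (ENNReal.sum_le_tsum F).trans (h ε hε)
        · have e1 : (F.card : ℝ≥0∞) = ENNReal.ofReal (F.card : ℝ) := by simp
          rw [e1, ← ENNReal.ofReal_mul (by positivity)]
          have e2 : (F.card : ℝ) * (η / N) ≤ η := by
            rw [← mul_div_assoc, div_le_iff₀ hN0, hN]
            nlinarith
          calc ENNReal.ofReal ((F.card : ℝ) * (η / N)) ≤ ENNReal.ofReal (η : ℝ) :=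
                ENNReal.ofReal_le_ofReal e2
            _ = η := ENNReal.ofReal_coe_nnreal

/-- the trace of `t k(t)^2` is the same for `x* x` and `x x*` -/
lemma tr_cfc_comm (b : HilbertBasis ι ℂ H) (x : H →L[ℂ] H) {k : ℝ → ℝ} (hk : Continuous k) :
    tr b (cfc (fun t : ℝ => t * (k t * k t)) (star x * x)) =
      tr b (cfc (fun t : ℝ => t * (k t * k t)) (x * star x)) := by
  set A := star x * x with hA
  set B := x * star x with hB
  have hAs : IsSelfAdjoint A := IsSelfAdjoint.star_mul_self x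
  have hBs : IsSelfAdjoint B := IsSelfAdjoint.mul_star_self x
  have hxA : x * A = B * x := by rw [hA, hB]; noncomm_ring
  have h1 : x * cfc k A = cfc k B * x := semiconj_cfc hxA hAs hBs hk
  have h2 : cfc k A * star x = star x * cfc k B := by
    have := congrArg star h1
    rwa [star_mul, star_mul, star_cfc, star_cfc] at this
  have e : ∀ {T : H →L[ℂ] H}, IsSelfAdjoint T →
      cfc (fun t : ℝ => t * (k t * k t)) T = cfc k T * T * cfc k T := by
    intro T hT
    have h3 : cfc k T * T * cfc k T = cfc k T * cfc (fun t : ℝ => t) T * cfc k T := by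
      rw [cfc_id' ℝ T hT]
    rw [h3, cfc_mul3 T hk continuous_id' hk]
    congr 1
    ext t
    ring
  rw [e hAs, e hBs]
  have h3 := tr_comm b (x * cfc k A)
  rw [star_mul, star_cfc] at h3
  have e1 : cfc k A * star x * (x * cfc k A) = cfc k A * A * cfc k A := by
    rw [hA]; noncomm_ring
  have e2 : x * cfc k A * (cfc k A * star x) = cfc k B * B * cfc k B := by
    rw [h1, h2, hB]; noncomm_ring
  rw [e1, e2] at h3
  exact h3

/-- invariance under adjoints -/
lemma tr_pw_star (b : HilbertBasis ι ℂ H) {s : ℝ} (hs0 : 0 < s) (x : H →L[ℂ] H) :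
    tr b (pw s (star x * x)) = tr b (pw s (x * star x)) := by
  rcases lt_or_ge s 1 with hs | hs
  · have key : ∀ y : H →L[ℂ] H, tr b (pw s (star y * y)) ≤ tr b (pw s (y * star y)) := by
      intro y
      apply tr_pw_le_of_reg b hs0 hs (star_mul_self_nonneg y)
      intro ε hε
      have h1 : (fun t : ℝ => t * kk ε (s - 1) t) =
          fun t => t * (kk ε ((s - 1) / 2) t * kk ε ((s - 1) / 2) t) := by
        ext t
        rw [kk_mul hε, add_halves]
      rw [h1, tr_cfc_comm b y (kk_cont hε _), ← h1]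
      apply tr_mono
      apply cfc_mono (fun t ht => reg_le hs hs0 hε (spec_nonneg (mul_star_self_nonneg y) ht))
        (continuous_id.mul (kk_cont hε _)).continuousOn (cont_pw hs0.le).continuousOn
    apply le_antisymm (key x)
    have := key (star x)
    rwa [star_star] at this
  · have h1 : ∀ {T : H →L[ℂ] H}, 0 ≤ T → pw s T = cfc (fun t : ℝ => t *
        (|t| ^ ((s - 1) / 2) * |t| ^ ((s - 1) / 2))) T := by
      intro T hT
      unfold pw
      apply cfc_congr
      intro t ht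
      have ht0 := spec_nonneg hT ht
      change t ^ s = t * (|t| ^ ((s - 1) / 2) * |t| ^ ((s - 1) / 2))
      rw [abs_of_nonneg ht0, ← Real.rpow_add_of_nonneg ht0 (by linarith) (by linarith), add_halves]
      have : t * t ^ (s - 1) = t ^ (1 : ℝ) * t ^ (s - 1) := by rw [Real.rpow_one]
      rw [this, ← Real.rpow_add_of_nonneg ht0 (by norm_num) (by linarith)]
      congr 1
      ring
    rw [h1 (star_mul_self_nonneg x), h1 (mul_star_self_nonneg x)]
    apply tr_cfc_comm
    exact continuous_abs.rpow_const fun t => Or.inr (by linarith)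

/-- McCarthy inequality, exponent below one. -/
lemma mcc_lt (b : HilbertBasis ι ℂ H) {s : ℝ} (hs0 : 0 < s) (hs : s < 1) {C D : H →L[ℂ] H}
    (hC : 0 ≤ C) (hD : 0 ≤ D) : tr b (pw s (C + D)) ≤ tr b (pw s C) + tr b (pw s D) := by
  have hS : 0 ≤ C + D := add_nonneg hC hD
  apply tr_pw_le_of_reg b hs0 hs hS
  intro ε hε
  set S := C + D with hSd
  set G := cfc (kk ε ((s - 1) / 2)) S with hG
  have hGs : star G = G := star_cfc _ _
  have hGG : G * G = cfc (kk ε (s - 1)) S := by
    rw [hG, ← cfc_mul _ _ _ (kk_cont hε _).continuousOn (kk_cont hε _).continuousOn]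
    congr 1
    ext t
    rw [kk_mul hε, add_halves]
  have e1 : cfc (fun t : ℝ => t * kk ε (s - 1) t) S = G * S * G := by
    have h3 : G * S * G = G * cfc (fun t : ℝ => t) S * G := by
      rw [cfc_id' ℝ S (IsSelfAdjoint.of_nonneg hS)]
    rw [h3, hG, cfc_mul3 S (kk_cont hε _) continuous_id' (kk_cont hε _)]
    congr 1
    ext t
    have := kk_mul hε ((s - 1) / 2) ((s - 1) / 2) t
    rw [add_halves] at this
    rw [← this]
    ring
  have e2 : G * S * G = G * C * G + G * D * G := by rw [hSd]; noncomm_ring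
  have key : ∀ {E : H →L[ℂ] H}, 0 ≤ E → E ≤ S → tr b (G * E * G) ≤ tr b (pw s E) := by
    intro E hE hES
    rw [tr_conj b hE hGs, hGG]
    have h1 : cfc (kk ε (s - 1)) S ≤ cfc (kk ε (s - 1)) E := by
      have := kk_anti (r := 1 - s) hε (by linarith) (by linarith) hE hES
      rwa [neg_sub] at this
    refine (tr_mono b (conj_mono (star_pw _ _) h1)).trans ?_
    apply tr_mono
    have h2 : pw (1 / 2) E * cfc (kk ε (s - 1)) E * pw (1 / 2) E =
        cfc (fun t : ℝ => t ^ ((1 : ℝ) / 2) * kk ε (s - 1) t * t ^ ((1 : ℝ) / 2)) E := by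
      unfold pw
      exact cfc_mul3 E (cont_pw (by norm_num)) (kk_cont hε _) (cont_pw (by norm_num))
    rw [h2]
    have hc5 : Continuous (fun t : ℝ => t ^ ((1 : ℝ) / 2) * kk ε (s - 1) t * t ^ ((1 : ℝ) / 2)) :=
      ((cont_pw (by norm_num)).mul (kk_cont hε _)).mul (cont_pw (by norm_num))
    refine cfc_mono (fun t ht => ?_) hc5.continuousOn (cont_pw hs0.le).continuousOn
    have ht0 := spec_nonneg hE ht
    have h3 : t ^ ((1 : ℝ) / 2) * kk ε (s - 1) t * t ^ ((1 : ℝ) / 2) = t * kk ε (s - 1) t := by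
      have : t ^ ((1 : ℝ) / 2) * t ^ ((1 : ℝ) / 2) = t := by
        rw [← Real.rpow_add_of_nonneg ht0 (by norm_num) (by norm_num), add_halves, Real.rpow_one]
      calc t ^ ((1 : ℝ) / 2) * kk ε (s - 1) t * t ^ ((1 : ℝ) / 2)
          = (t ^ ((1 : ℝ) / 2) * t ^ ((1 : ℝ) / 2)) * kk ε (s - 1) t := by ring
        _ = _ := by rw [this]
    rw [h3]
    exact reg_le hs hs0 hε ht0
  rw [e1, e2, tr_add b (conj_nonneg' hGs hC) (conj_nonneg' hGs hD)]
  exact add_le_add (key hC (le_add_of_nonneg_right hD)) (key hD (le_add_of_nonneg_left hC))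

/-- McCarthy inequality, exponent above one. -/
lemma mcc_gt (b : HilbertBasis ι ℂ H) {s : ℝ} (hs : 1 < s) {C D : H →L[ℂ] H}
    (hC : 0 ≤ C) (hD : 0 ≤ D) (hCc : IsCompactOperator C) (hDc : IsCompactOperator D) :
    tr b (pw s C) + tr b (pw s D) ≤ tr b (pw s (C + D)) := by
  have hS : 0 ≤ C + D := add_nonneg hC hD
  set S := C + D with hSd
  set G := pw ((s - 1) / 2) S with hG
  have hGs : star G = G := star_pw _ _
  have hGG : G * G = pw (s - 1) S := by
    rw [hG, pw_mul (by linarith) (by linarith) hS, add_halves]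
  have e1 : pw s S = G * S * G := by
    have h3 : G * S * G = G * pw 1 S * G := by rw [pw_one hS]
    rw [h3, hG, pw_mul (by linarith) (by linarith) hS, pw_mul (by linarith) (by linarith) hS]
    congr 1
    ring
  have e2 : G * S * G = G * C * G + G * D * G := by rw [hSd]; noncomm_ring
  have key : ∀ {E : H →L[ℂ] H}, 0 ≤ E → IsCompactOperator E → E ≤ S →
      tr b (pw s E) ≤ tr b (G * E * G) := by
    intro E hE hEc hES
    rw [tr_conj b hE hGs, hGG]
    obtain ⟨κ, f, ε, hε, hf⟩ := exists_eigenbasis hE hEc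
    rw [tr_eq b f (pw_nonneg s hE), tr_eq b f (conj_nonneg' (star_pw _ _) (pw_nonneg _ hS)),
      tr_pw_eigen f (by linarith) hE hf]
    unfold tr
    apply ENNReal.tsum_le_tsum
    intro i
    apply ENNReal.ofReal_le_ofReal
    have hone : ‖f i‖ = 1 := f.orthonormal.1 i
    have h1 : pw (1 / 2) E (f i) = ((ε i ^ ((1 : ℝ) / 2) : ℝ) : ℂ) • f i :=
      pw_eigen (by norm_num) hE (hf i)
    have h2 : (⟪f i, (pw (1 / 2) E * pw (s - 1) S * pw (1 / 2) E) (f i)⟫_ℂ).re =
        ε i * (⟪f i, pw (s - 1) S (f i)⟫_ℂ).re := by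
      rw [ContinuousLinearMap.mul_apply, ContinuousLinearMap.mul_apply, h1, map_smul, map_smul,
        inner_smul_right]
      have h3 : ⟪f i, pw (1 / 2) E (pw (s - 1) S (f i))⟫_ℂ =
          ((ε i ^ ((1 : ℝ) / 2) : ℝ) : ℂ) * ⟪f i, pw (s - 1) S (f i)⟫_ℂ := by
        rw [← star_pw (1 / 2) E, inner_star_right, h1, inner_smul_left, Complex.conj_ofReal]
      rw [h3, ← mul_assoc, ← Complex.ofReal_mul, Complex.re_ofReal_mul,
        ← Real.rpow_add_of_nonneg (hε i) (by norm_num) (by norm_num), add_halves, Real.rpow_one]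
    rw [h2]
    have h4 : ε i ^ (s - 1) ≤ (⟪f i, pw (s - 1) S (f i)⟫_ℂ).re := by
      have h5 : ε i = (⟪f i, E (f i)⟫_ℂ).re := by
        rw [hf, inner_smul_right, inner_self_basis]; simp
      rcases le_or_gt (s - 1) 1 with h | h
      · have h6 := inner_mono (pw_mono (by linarith) h hE hES) (f i)
        have h7 : (⟪f i, pw (s - 1) E (f i)⟫_ℂ).re = ε i ^ (s - 1) := by
          rw [pw_eigen (by linarith) hE (hf i), inner_smul_right, inner_self_basis]
          simp
        rw [h7] at h6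
        exact h6
      · refine le_trans ?_ (jensen_ge hS hone h.le)
        apply Real.rpow_le_rpow (hε i) _ (by linarith)
        rw [h5]
        exact inner_mono hES (f i)
    calc ε i ^ s = ε i ^ (1 + (s - 1)) := by congr 1; ring
      _ = ε i ^ (1 : ℝ) * ε i ^ (s - 1) :=
          Real.rpow_add_of_nonneg (hε i) (by norm_num) (by linarith)
      _ = ε i * ε i ^ (s - 1) := by rw [Real.rpow_one]
      _ ≤ ε i * (⟪f i, pw (s - 1) S (f i)⟫_ℂ).re := mul_le_mul_of_nonneg_left h4 (hε i)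
  rw [e1, e2, tr_add b (conj_nonneg' hGs hC) (conj_nonneg' hGs hD)]
  exact add_le_add (key hC hCc (le_add_of_nonneg_right hD))
    (key hD hDc (le_add_of_nonneg_left hC))

end Pool.Agent.H44.Sch
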