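import Pool.Agent.H44.Sch.Fc

/-!
Real powers of positive operators and their traces.
-/

set_option autoImplicit false
open scoped NNReal ENNReal InnerProductSpace
open ContinuousLinearMap Filter Topology

namespace Pool.Agent.H44.Sch
set_option linter.unusedSectionVars false
set_option linter.deprecated false

open Pool.Agent.H53 (inner_star_left inner_star_right normsq_eq)

universe u
variable {H : Type u} [NormedAddCommGroup H] [InnerProductSpace ℂ H] [CompleteSpace H]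
variable {ι κ : Type*}

/-- Real power by functional calculus. -/
noncomputable def pw (r : ℝ) (A : H →L[ℂ] H) : H →L[ℂ] H := cfc (fun t : ℝ => t ^ r) A

lemma cont_pw {r : ℝ} (hr : 0 ≤ r) : Continuous (fun t : ℝ => t ^ r) :=
  Real.continuous_rpow_const hr

lemma spec_nonneg {A : H →L[ℂ] H} (hA : 0 ≤ A) {t : ℝ} (ht : t ∈ spectrum ℝ A) : 0 ≤ t :=
  spectrum_nonneg_of_nonneg hA ht

lemma pw_nonneg (r : ℝ) {A : H →L[ℂ] H} (hA : 0 ≤ A) : 0 ≤ pw r A :=
  cfc_nonneg fun _ ht => Real.rpow_nonneg (spec_nonneg hA ht) _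

lemma pw_mul {r s : ℝ} (hr : 0 ≤ r) (hs : 0 ≤ s) {A : H →L[ℂ] H} (hA : 0 ≤ A) :
    pw r A * pw s A = pw (r + s) A := by
  unfold pw
  rw [← cfc_mul _ _ _ (cont_pw hr).continuousOn (cont_pw hs).continuousOn]
  apply cfc_congr
  intro t ht
  exact (Real.rpow_add_of_nonneg (spec_nonneg hA ht) hr hs).symm

lemma pw_one {A : H →L[ℂ] H} (hA : 0 ≤ A) : pw 1 A = A := by
  unfold pw
  simp only [Real.rpow_one]
  exact cfc_id' ℝ A (IsSelfAdjoint.of_nonneg hA)

lemma pw_pw {r s : ℝ} (hr : 0 ≤ r) (hs : 0 ≤ s) {A : H →L[ℂ] H} (hA : 0 ≤ A) :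
    pw s (pw r A) = pw (r * s) A := by
  unfold pw
  rw [← cfc_comp' (fun t : ℝ => t ^ s) (fun t : ℝ => t ^ r) A (cont_pw hs).continuousOn
    (cont_pw hr).continuousOn (IsSelfAdjoint.of_nonneg hA)]
  apply cfc_congr
  intro t ht
  exact (Real.rpow_mul (spec_nonneg hA ht) _ _).symm

lemma pw_inj {r : ℝ} (hr : 0 < r) {A B : H →L[ℂ] H} (hA : 0 ≤ A) (hB : 0 ≤ B)
    (h : pw r A = pw r B) : A = B := by
  have h1 := congrArg (pw r⁻¹) h
  rw [pw_pw hr.le (inv_nonneg.mpr hr.le) hA, pw_pw hr.le (inv_nonneg.mpr hr.le) hB,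
    mul_inv_cancel₀ hr.ne', pw_one hA, pw_one hB] at h1
  exact h1

lemma pw_eq_rpow (r : ℝ) {A : H →L[ℂ] H} (hA : 0 ≤ A) : pw r A = A ^ r :=
  (CFC.rpow_eq_cfc_real hA).symm

lemma pw_mono {r : ℝ} (h0 : 0 ≤ r) (h1 : r ≤ 1) {A B : H →L[ℂ] H} (hA : 0 ≤ A) (h : A ≤ B) :
    pw r A ≤ pw r B := by
  rw [pw_eq_rpow r hA, pw_eq_rpow r (hA.trans h)]
  exact CFC.rpow_le_rpow ⟨h0, h1⟩ h

lemma star_cfc (f : ℝ → ℝ) (A : H →L[ℂ] H) : star (cfc f A) = cfc f A :=
  (cfc_predicate f A : IsSelfAdjoint (cfc f A)).star_eq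

lemma star_pw (r : ℝ) (A : H →L[ℂ] H) : star (pw r A) = pw r A := star_cfc _ _

lemma tr_pw (f : HilbertBasis ι ℂ H) {r : ℝ} (hr : 0 ≤ r) {A : H →L[ℂ] H} (hA : 0 ≤ A) :
    tr f (pw r A) = hsn f (pw (r / 2) A) := by
  rw [← tr_star_mul, star_pw, pw_mul (by positivity) (by positivity) hA, add_halves]

lemma compact_of_tr_pw (f : HilbertBasis ι ℂ H) {r : ℝ} (hr : 0 < r) {A : H →L[ℂ] H} (hA : 0 ≤ A)
    (h : tr f (pw r A) ≠ ⊤) : IsCompactOperator A := by
  rw [tr_pw f hr.le hA] at h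
  have h1 := compact_of_hsn f h
  have h2 : pw (2 / r) (pw (r / 2) A) = A := by
    rw [pw_pw (by positivity) (by positivity) hA]
    have : r / 2 * (2 / r) = 1 := by field_simp
    rw [this, pw_one hA]
  rw [← h2]
  refine compact_cfc (star_pw _ _) h1 (cont_pw (by positivity)) ?_
  exact Real.zero_rpow (by positivity)

lemma compact_pw {r : ℝ} (hr : 0 < r) {A : H →L[ℂ] H} (hA : 0 ≤ A) (h : IsCompactOperator A) :
    IsCompactOperator (pw r A : H →L[ℂ] H) :=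
  compact_cfc (IsSelfAdjoint.of_nonneg hA) h (cont_pw hr.le) (Real.zero_rpow hr.ne')

lemma pw_eigen {r : ℝ} (hr : 0 ≤ r) {A : H →L[ℂ] H} (hA : 0 ≤ A) {v : H} {μ : ℝ}
    (h : A v = (μ : ℂ) • v) : pw r A v = ((μ ^ r : ℝ) : ℂ) • v :=
  cfc_eigen (IsSelfAdjoint.of_nonneg hA) h (cont_pw hr)

lemma inner_self_basis (f : HilbertBasis ι ℂ H) (i : ι) : ⟪f i, f i⟫_ℂ = 1 := by
  rw [inner_self_eq_norm_sq_to_K, f.orthonormal.1 i]
  norm_num

lemma tr_eigen (f : HilbertBasis ι ℂ H) {A : H →L[ℂ] H} {α : ι → ℝ}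
    (h : ∀ i, A (f i) = (α i : ℂ) • f i) : tr f A = ∑' i, ENNReal.ofReal (α i) := by
  unfold tr
  congr 1
  ext i
  rw [h, inner_smul_right, inner_self_basis]
  simp

lemma tr_pw_eigen (f : HilbertBasis ι ℂ H) {r : ℝ} (hr : 0 ≤ r) {A : H →L[ℂ] H} (hA : 0 ≤ A)
    {α : ι → ℝ} (h : ∀ i, A (f i) = (α i : ℂ) • f i) :
    tr f (pw r A) = ∑' i, ENNReal.ofReal (α i ^ r) :=
  tr_eigen f fun i => pw_eigen hr hA (h i)

/-- expectation of a function of an operator in a vector -/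
noncomputable def ev (A : H →L[ℂ] H) (v : H) (f : ℝ → ℝ) : ℝ := (⟪v, (cfc f A) v⟫_ℂ).re

section ev

variable {A : H →L[ℂ] H} (hA : 0 ≤ A) (v : H) {f g : ℝ → ℝ}
include hA

lemma ev_mono (hf : Continuous f) (hg : Continuous g) (h : ∀ t, 0 ≤ t → f t ≤ g t) :
    ev A v f ≤ ev A v g := by
  apply inner_mono
  exact cfc_mono (fun t ht => h t (spec_nonneg hA ht)) hf.continuousOn hg.continuousOn

lemma ev_add (hf : Continuous f) (hg : Continuous g) :
    ev A v (fun t => f t + g t) = ev A v f + ev A v g := by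
  unfold ev
  rw [cfc_add (a := A) f g hf.continuousOn hg.continuousOn, ContinuousLinearMap.add_apply,
    inner_add_right, Complex.add_re]

lemma ev_sub (hf : Continuous f) (hg : Continuous g) :
    ev A v (fun t => f t - g t) = ev A v f - ev A v g := by
  unfold ev
  rw [cfc_sub (a := A) f g hf.continuousOn hg.continuousOn, ContinuousLinearMap.sub_apply,
    inner_sub_right, Complex.sub_re]

lemma ev_mul_left (c : ℝ) (hf : Continuous f) :
    ev A v (fun t => c * f t) = c * ev A v f := by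
  unfold ev
  rw [cfc_const_mul c f A hf.continuousOn, ContinuousLinearMap.smul_apply,
    ← Complex.coe_smul, inner_smul_right, Complex.re_ofReal_mul]

lemma ev_const (c : ℝ) : ev A v (fun _ => c) = c * ‖v‖ ^ 2 := by
  unfold ev
  rw [cfc_const c A (IsSelfAdjoint.of_nonneg hA), Algebra.algebraMap_eq_smul_one,
    ContinuousLinearMap.smul_apply, ContinuousLinearMap.one_apply, ← Complex.coe_smul,
    inner_smul_right, Complex.re_ofReal_mul, normsq_eq]

lemma ev_id : ev A v (fun t => t) = (⟪v, A v⟫_ℂ).re := by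
  unfold ev
  rw [cfc_id' ℝ A (IsSelfAdjoint.of_nonneg hA)]

lemma norm_sq_cfc (hf : Continuous f) : ‖(cfc f A) v‖ ^ 2 = ev A v (fun t => f t * f t) := by
  unfold ev
  rw [cfc_mul f f A hf.continuousOn hf.continuousOn]
  exact normsq_apply _ v (by rw [star_cfc])

lemma ev_nonneg (hf : ∀ t, 0 ≤ t → 0 ≤ f t) : 0 ≤ ev A v f := by
  unfold ev
  exact inner_nonneg (cfc_nonneg fun t ht => hf t (spec_nonneg hA ht)) v

end ev

end Pool.Agent.H44.Sch
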