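import Pool.Agent.H44.Sch.Clark

/-!
The mixed Schwarz inequality and strict convexity of the Schatten norms.
-/

set_option autoImplicit false
open scoped NNReal ENNReal InnerProductSpace
open ContinuousLinearMap Filter Topology

namespace Pool.Agent.H44.Sch
set_option linter.unusedSectionVars false
set_option linter.deprecated false

open Pool.Agent.H53 (inner_star_left inner_star_right normsq_eq)

universe u
variable {H : Type u} [NormedAddCommGroup H] [InnerProductSpace ℂ H] [CompleteSpace H]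
variable {ι κ : Type*}

/-- regularised power of the square root -/
noncomputable def mm (ε r : ℝ) : ℝ → ℝ := fun t => (|t| ^ ((1 : ℝ) / 2) + ε) ^ r

lemma mm_cont {ε : ℝ} (hε : 0 < ε) (r : ℝ) : Continuous (mm ε r) := by
  unfold mm
  apply Continuous.rpow_const
  · exact (continuous_abs.rpow_const fun t => Or.inr (by norm_num)).add continuous_const
  · intro t
    left
    positivity

lemma mm_mul {ε : ℝ} (hε : 0 < ε) (r q t : ℝ) : mm ε r t * mm ε q t = mm ε (r + q) t := by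
  unfold mm
  rw [← Real.rpow_add (by positivity)]

/-- absolute value -/
noncomputable def ab (x : H →L[ℂ] H) : H →L[ℂ] H := pw (1 / 2) (star x * x)

lemma ab_nonneg (x : H →L[ℂ] H) : 0 ≤ ab x := pw_nonneg _ (star_mul_self_nonneg x)

lemma pw_ab {p : ℝ} (hp : 0 ≤ p) (x : H →L[ℂ] H) : pw p (ab x) = pw (p / 2) (star x * x) := by
  unfold ab
  rw [pw_pw (by norm_num) hp (star_mul_self_nonneg x)]
  congr 1
  ring

lemma ab_star (x : H →L[ℂ] H) : ab (star x) = pw (1 / 2) (x * star x) := by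
  unfold ab
  rw [star_star]

/-- Mixed Schwarz inequality. -/
lemma mixed_schwarz (x : H →L[ℂ] H) (g f : H) :
    ‖⟪g, x f⟫_ℂ‖ ^ 2 ≤ (⟪g, ab (star x) g⟫_ℂ).re * (⟪f, ab x f⟫_ℂ).re := by
  set A := star x * x with hA
  set B := x * star x with hB
  have hA0 : 0 ≤ A := star_mul_self_nonneg x
  have hB0 : 0 ≤ B := mul_star_self_nonneg x
  have hAs := IsSelfAdjoint.of_nonneg hA0
  have hBs := IsSelfAdjoint.of_nonneg hB0
  have hxA : x * A = B * x := by rw [hA, hB]; noncomm_ring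
  have key : ∀ ε > 0, ‖⟪g, x f⟫_ℂ‖ ^ 2 ≤
      (⟪g, ab (star x) g⟫_ℂ).re * ((⟪f, ab x f⟫_ℂ).re + ε * ‖f‖ ^ 2) := by
    intro ε hε
    have h1 : x * cfc (mm ε (-(1 / 2))) A = cfc (mm ε (-(1 / 2))) B * x :=
      semiconj_cfc hxA hAs hBs (mm_cont hε _)
    have h2 : cfc (mm ε (-(1 / 2))) A * cfc (mm ε (1 / 2)) A = 1 := by
      rw [cfc_mul2 A (mm_cont hε _) (mm_cont hε _), ← cfc_one ℝ A hAs]
      congr 1
      ext t
      rw [mm_mul hε]
      unfold mm
      norm_num
    set w := cfc (mm ε (1 / 2)) A f with hw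
    set z := (star x) (cfc (mm ε (-(1 / 2))) B g) with hz
    have h3 : ⟪g, x f⟫_ℂ = ⟪z, w⟫_ℂ := by
      have h4 : f = (cfc (mm ε (-(1 / 2))) A) w := by
        rw [hw, ← ContinuousLinearMap.mul_apply, h2, ContinuousLinearMap.one_apply]
      have h5 : x f = (cfc (mm ε (-(1 / 2))) B) (x w) := by
        conv_lhs => rw [h4]
        have := congrArg (fun y : H →L[ℂ] H => y w) h1
        simpa using this
      rw [h5, hz, inner_star_left, ← star_cfc (mm ε (-(1 / 2))) B, inner_star_right, star_cfc]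
    have h6 : ‖w‖ ^ 2 = (⟪f, ab x f⟫_ℂ).re + ε * ‖f‖ ^ 2 := by
      rw [hw, norm_sq_cfc hA0 f (mm_cont hε _)]
      have h7 : ev A f (fun t => mm ε (1 / 2) t * mm ε (1 / 2) t) =
          ev A f (fun t => t ^ ((1 : ℝ) / 2) + ε) := by
        unfold ev
        congr 3
        apply cfc_congr
        intro t ht
        change mm ε (1 / 2) t * mm ε (1 / 2) t = t ^ ((1 : ℝ) / 2) + ε
        rw [mm_mul hε]
        unfold mm
        rw [abs_of_nonneg (spec_nonneg hA0 ht)]
        norm_num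
      rw [h7, ev_add hA0 f (cont_pw (by norm_num)) continuous_const, ev_const hA0]
      rfl
    have h8 : ‖z‖ ^ 2 ≤ (⟪g, ab (star x) g⟫_ℂ).re := by
      have h9 : ‖z‖ ^ 2 = ev B g (fun t => mm ε (-(1 / 2)) t * t * mm ε (-(1 / 2)) t) := by
        rw [hz]
        have e1 : (star x) (cfc (mm ε (-(1 / 2))) B g) =
            (star x * cfc (mm ε (-(1 / 2))) B) g := rfl
        rw [e1]
        unfold ev
        apply normsq_apply
        rw [star_mul, star_cfc, star_star, ← cfc_mul3 B (mm_cont hε _) continuous_id'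
          (mm_cont hε _), cfc_id' ℝ B hBs]
        simp only [hB]
        noncomm_ring
      rw [h9, ab_star]
      change _ ≤ ev B g (fun t => t ^ ((1 : ℝ) / 2))
      apply ev_mono hB0 g (((mm_cont hε _).mul continuous_id').mul (mm_cont hε _))
        (cont_pw (by norm_num))
      intro t ht
      have e1 : mm ε (-(1 / 2)) t * t * mm ε (-(1 / 2)) t = t * mm ε (-1) t := by
        have := mm_mul hε (-(1 / 2)) (-(1 / 2)) t
        norm_num at this
        rw [← this]
        ring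
      change mm ε (-(1 / 2)) t * t * mm ε (-(1 / 2)) t ≤ t ^ ((1 : ℝ) / 2)
      rw [e1]
      unfold mm
      rw [abs_of_nonneg ht, Real.rpow_neg_one, ← div_eq_mul_inv, div_le_iff₀ (by positivity)]
      have e2 : t ^ ((1 : ℝ) / 2) * t ^ ((1 : ℝ) / 2) = t := by
        rw [← Real.rpow_add_of_nonneg ht (by norm_num) (by norm_num), add_halves, Real.rpow_one]
      have e3 : 0 ≤ t ^ ((1 : ℝ) / 2) := Real.rpow_nonneg ht _
      nlinarith [mul_nonneg e3 hε.le]
    rw [h3]
    have h10 : ‖⟪z, w⟫_ℂ‖ ^ 2 ≤ ‖z‖ ^ 2 * ‖w‖ ^ 2 := by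
      rw [← mul_pow]
      gcongr
      exact norm_inner_le_norm _ _
    refine h10.trans ?_
    rw [h6]
    apply mul_le_mul_of_nonneg_right h8
    rw [← h6]
    positivity
  have hu := inner_nonneg (ab_nonneg (star x)) g
  apply le_of_forall_pos_le_add
  intro η hη
  set u := (⟪g, ab (star x) g⟫_ℂ).re with hu'
  have h := key (η / (u * ‖f‖ ^ 2 + 1)) (by positivity)
  have h2 : u * (η / (u * ‖f‖ ^ 2 + 1) * ‖f‖ ^ 2) ≤ η := by
    have : u * (η / (u * ‖f‖ ^ 2 + 1) * ‖f‖ ^ 2) = η * ((u * ‖f‖ ^ 2) / (u * ‖f‖ ^ 2 + 1)) := by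
      field_simp
    rw [this]
    have h3 : (u * ‖f‖ ^ 2) / (u * ‖f‖ ^ 2 + 1) ≤ 1 := by
      rw [div_le_one (by positivity)]
      linarith
    nlinarith
  rw [mul_add] at h
  linarith

lemma ms_half (x : H →L[ℂ] H) (g f : H) :
    ‖⟪g, x f⟫_ℂ‖ ≤ ((⟪g, ab (star x) g⟫_ℂ).re + (⟪f, ab x f⟫_ℂ).re) / 2 := by
  have h := mixed_schwarz x g f
  have hu := inner_nonneg (ab_nonneg (star x)) g
  have hv := inner_nonneg (ab_nonneg x) f
  apply abs_le_of_sq_le_sq' _ (by positivity) |>.2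
  nlinarith [sq_nonneg ((⟪g, ab (star x) g⟫_ℂ).re - (⟪f, ab x f⟫_ℂ).re)]

/-- convexity of the real power at the midpoint -/
lemma mid_pow {p a b : ℝ} (hp : 1 ≤ p) (ha : 0 ≤ a) (hb : 0 ≤ b) :
    ((a + b) / 2) ^ p ≤ (a ^ p + b ^ p) / 2 := by
  have h := (convexOn_rpow hp).2 (Set.mem_Ici.mpr ha) (Set.mem_Ici.mpr hb)
    (by norm_num : (0 : ℝ) ≤ 1 / 2) (by norm_num : (0 : ℝ) ≤ 1 / 2) (by norm_num)
  simp only [smul_eq_mul] at h
  have e : (1 : ℝ) / 2 * a + 1 / 2 * b = (a + b) / 2 := by ring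
  rw [e] at h
  linarith

/-- Strict convexity below two. -/
lemma strict_lt (b : HilbertBasis ι ℂ H) {p : ℝ} (hp1 : 1 < p) (hp : p < 2) {c d : H →L[ℂ] H}
    (hfa : Qp b p (c + d) ≠ ⊤) (hfb : Qp b p (c - d) ≠ ⊤)
    (ha : Qp b p (c + d) ≤ Qp b p c) (hb : Qp b p (c - d) ≤ Qp b p c) : d = 0 := by
  classical
  have hp0 : 0 < p := by linarith
  set x := c + d with hx
  set y := c - d with hy
  have hxc := compact_of_Qp b hp0 hfa
  have hyc := compact_of_Qp b hp0 hfb
  have hcxy : c = (2⁻¹ : ℂ) • (x + y) := by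
    rw [hx, hy, add_add_sub_cancel, ← two_smul ℂ c, smul_smul]
    norm_num
  have hcc : IsCompactOperator c := by
    rw [hcxy]
    exact compact_smul (compact_add hxc hyc) _
  have hC0 := star_mul_self_nonneg c
  obtain ⟨κ, f, γ, hγ, hf⟩ := exists_eigenbasis hC0 (compact_star_mul hcc)
  let F := (2⁻¹ : ℝ) • (ab x + ab y)
  let G := (2⁻¹ : ℝ) • (ab (star x) + ab (star y))
  have hFF : ab x + ab y = F + F := by
    simp only [F]
    rw [← two_smul ℝ ((2⁻¹ : ℝ) • (ab x + ab y)), smul_smul]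
    norm_num
  have hGG : ab (star x) + ab (star y) = G + G := by
    simp only [G]
    rw [← two_smul ℝ ((2⁻¹ : ℝ) • (ab (star x) + ab (star y))), smul_smul]
    norm_num
  have hF0 : 0 ≤ F := smul_nonneg (by norm_num) (add_nonneg (ab_nonneg x) (ab_nonneg y))
  have hG0 : 0 ≤ G := smul_nonneg (by norm_num) (add_nonneg (ab_nonneg _) (ab_nonneg _))
  have hcomp : ∀ {z : H →L[ℂ] H}, IsCompactOperator z → IsCompactOperator (ab z) :=
    fun hz => compact_pw (by norm_num) (star_mul_self_nonneg _) (compact_star_mul hz)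
  have hstar : ∀ {z : H →L[ℂ] H}, Qp b p z ≠ ⊤ → IsCompactOperator (star z : H →L[ℂ] H) := by
    intro z hz
    apply compact_of_Qp b hp0
    rwa [Qp_star b hp0]
  have hreal : ∀ {z : H →L[ℂ] H}, IsCompactOperator z →
      IsCompactOperator ((2⁻¹ : ℝ) • z : H →L[ℂ] H) := by
    intro z hz
    have : ((2⁻¹ : ℝ) • z : H →L[ℂ] H) = ((2⁻¹ : ℝ) : ℂ) • z := (Complex.coe_smul _ _).symm
    rw [this]
    exact compact_smul hz _
  have hFc : IsCompactOperator F := hreal (compact_add (hcomp hxc) (hcomp hyc))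
  have hGc : IsCompactOperator G := hreal (compact_add (hcomp (hstar hfa)) (hcomp (hstar hfb)))
  have hQab : ∀ z : H →L[ℂ] H, tr b (pw p (ab z)) = Qp b p z := by
    intro z
    rw [pw_ab hp0.le]
    rfl
  have jF := trace_jensen_gt b hp1 (ab_nonneg x) (ab_nonneg y) hF0 hFF hFc
  have jG := trace_jensen_gt b hp1 (ab_nonneg (star x)) (ab_nonneg (star y)) hG0 hGG hGc
  rw [hQab, hQab] at jF
  rw [hQab, hQab, Qp_star b hp0, Qp_star b hp0] at jG
  -- the orthonormal system
  let I := {i : κ // 0 < γ i}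
  let g : I → H := fun i => (((γ i) ^ (-(1 : ℝ) / 2) : ℝ) : ℂ) • c (f i)
  have hinner : ∀ i j : κ, ⟪c (f i), c (f j)⟫_ℂ = if i = j then (γ i : ℂ) else 0 := by
    intro i j
    rw [← inner_star_right, ← ContinuousLinearMap.mul_apply, hf, inner_smul_right,
      orthonormal_iff_ite.mp f.orthonormal i j]
    split_ifs with h
    · rw [h, mul_one]
    · rw [mul_zero]
  have hg : Orthonormal ℂ g := by
    rw [orthonormal_iff_ite]
    intro i j
    simp only [g]
    rw [inner_smul_left, inner_smul_right, hinner, Complex.conj_ofReal]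
    by_cases h : i = j
    · rw [if_pos (by rw [h]), if_pos h, h]
      have hj : 0 < γ j := j.2
      rw [← mul_assoc, ← Complex.ofReal_mul, ← Complex.ofReal_mul, ← Real.rpow_add hj]
      have : -(1 : ℝ) / 2 + -1 / 2 = -1 := by norm_num
      rw [this, Real.rpow_neg_one, inv_mul_cancel₀ hj.ne', Complex.ofReal_one]
    · rw [if_neg (fun h' => h (Subtype.ext h')), if_neg h]
      simp
  have hone : ∀ i, ‖f i‖ = 1 := f.orthonormal.1
  have hgc : ∀ i : I, ‖⟪g i, c (f i)⟫_ℂ‖ = (γ i) ^ ((1 : ℝ) / 2) := by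
    intro i
    simp only [g]
    have hi : 0 < γ i := i.2
    rw [inner_smul_left, hinner, if_pos rfl, Complex.conj_ofReal, ← Complex.ofReal_mul]
    have : (γ (i : κ)) ^ (-(1 : ℝ) / 2) * γ i = (γ i) ^ ((1 : ℝ) / 2) := by
      rw [← Real.rpow_add_one hi.ne']
      norm_num
    rw [this, Complex.norm_real, Real.norm_eq_abs, abs_of_nonneg (by positivity)]
  have hbound : ∀ i : I, (γ i) ^ ((1 : ℝ) / 2) ≤
      ((⟪g i, G (g i)⟫_ℂ).re + (⟪f i, F (f i)⟫_ℂ).re) / 2 := by
    intro i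
    rw [← hgc i]
    have h1 : ⟪g i, c (f i)⟫_ℂ = (2⁻¹ : ℂ) * (⟪g i, x (f i)⟫_ℂ + ⟪g i, y (f i)⟫_ℂ) := by
      conv_lhs => rw [hcxy]
      rw [ContinuousLinearMap.smul_apply, inner_smul_right, ContinuousLinearMap.add_apply,
        inner_add_right]
    rw [h1, norm_mul]
    have h2 : ‖(2⁻¹ : ℂ)‖ = 2⁻¹ := by simp
    have h3 := norm_add_le ⟪g i, x (f i)⟫_ℂ ⟪g i, y (f i)⟫_ℂ
    have h4 := ms_half x (g i) (f i)
    have h5 := ms_half y (g i) (f i)
    have h6 : (⟪g i, G (g i)⟫_ℂ).re =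
        ((⟪g i, ab (star x) (g i)⟫_ℂ).re + (⟪g i, ab (star y) (g i)⟫_ℂ).re) / 2 := by
      simp only [G]
      rw [ContinuousLinearMap.smul_apply, ← Complex.coe_smul, inner_smul_right,
        Complex.re_ofReal_mul, ContinuousLinearMap.add_apply, inner_add_right, Complex.add_re]
      ring
    have h7 : (⟪f i, F (f i)⟫_ℂ).re =
        ((⟪f i, ab x (f i)⟫_ℂ).re + (⟪f i, ab y (f i)⟫_ℂ).re) / 2 := by
      simp only [F]
      rw [ContinuousLinearMap.smul_apply, ← Complex.coe_smul, inner_smul_right,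
        Complex.re_ofReal_mul, ContinuousLinearMap.add_apply, inner_add_right, Complex.add_re]
      ring
    rw [h2, h6, h7]
    linarith
  have hpow : ∀ i : I, (γ i) ^ (p / 2) ≤
      ((⟪g i, pw p G (g i)⟫_ℂ).re + (⟪f i, pw p F (f i)⟫_ℂ).re) / 2 := by
    intro i
    have hi : 0 ≤ γ i := hγ i
    have h1 : (γ i) ^ (p / 2) = ((γ i) ^ ((1 : ℝ) / 2)) ^ p := by
      rw [← Real.rpow_mul hi]
      congr 1
      ring
    rw [h1]
    have hU := inner_nonneg hG0 (g i)
    have hV := inner_nonneg hF0 (f i)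
    calc ((γ i) ^ ((1 : ℝ) / 2)) ^ p
        ≤ (((⟪g i, G (g i)⟫_ℂ).re + (⟪f i, F (f i)⟫_ℂ).re) / 2) ^ p :=
          Real.rpow_le_rpow (by positivity) (hbound i) hp0.le
      _ ≤ ((⟪g i, G (g i)⟫_ℂ).re ^ p + (⟪f i, F (f i)⟫_ℂ).re ^ p) / 2 := mid_pow hp1.le hU hV
      _ ≤ _ := by
          have h2 := jensen_ge hG0 (hg.1 i) hp1.le
          have h3 := jensen_ge hF0 (hone i) hp1.le
          linarith
  -- sum
  have hQc : Qp b p c = ∑' i : I, ENNReal.ofReal ((γ i) ^ (p / 2)) := by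
    unfold Qp
    rw [tr_eq b f (pw_nonneg _ hC0), tr_pw_eigen f (by positivity) hC0 hf]
    symm
    apply tsum_subtype_eq_of_support_subset (f := fun i => ENNReal.ofReal ((γ i) ^ (p / 2)))
    intro i hi
    rw [Function.mem_support] at hi
    by_contra h
    apply hi
    have h0 : γ i = 0 := le_antisymm (not_lt.mp h) (hγ i)
    rw [h0, Real.zero_rpow (by positivity), ENNReal.ofReal_zero]
  have hsumle : Qp b p c + Qp b p c ≤ tr b (pw p G) + tr b (pw p F) := by
    rw [hQc, ← ENNReal.tsum_add]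
    have h1 : ∀ i : I, ENNReal.ofReal ((γ i) ^ (p / 2)) + ENNReal.ofReal ((γ i) ^ (p / 2)) ≤
        ENNReal.ofReal (⟪g i, pw p G (g i)⟫_ℂ).re + ENNReal.ofReal (⟪f i, pw p F (f i)⟫_ℂ).re := by
      intro i
      have hi : 0 ≤ (γ i) ^ (p / 2) := Real.rpow_nonneg (hγ i) _
      rw [← ENNReal.ofReal_add hi hi,
        ← ENNReal.ofReal_add (inner_nonneg (pw_nonneg _ hG0) _) (inner_nonneg (pw_nonneg _ hF0) _)]
      apply ENNReal.ofReal_le_ofReal
      linarith [hpow i]
    refine (ENNReal.tsum_le_tsum h1).trans ?_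
    rw [ENNReal.tsum_add]
    apply add_le_add
    · exact sum_orthonormal_le_tr b (pw_nonneg _ hG0) hg
    · rw [tr_eq b f (pw_nonneg _ hF0)]
      unfold tr
      exact ENNReal.tsum_comp_le_tsum_of_injective Subtype.val_injective
        (fun i => ENNReal.ofReal (⟪f i, pw p F (f i)⟫_ℂ).re)
  -- finiteness
  set K := Qp b p c with hK
  have hxy : Qp b p x + Qp b p y ≤ K + K := add_le_add ha hb
  have hfinxy : Qp b p x + Qp b p y ≠ ⊤ := ENNReal.add_ne_top.mpr ⟨hfa, hfb⟩
  have hfF : tr b (pw p F) ≠ ⊤ :=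
    (ENNReal.add_ne_top.mp (ne_top_of_le_ne_top hfinxy jF.1)).1
  have hfG : tr b (pw p G) ≠ ⊤ :=
    (ENNReal.add_ne_top.mp (ne_top_of_le_ne_top hfinxy jG.1)).1
  have hKfin : K + K ≠ ⊤ :=
    ne_top_of_le_ne_top (ENNReal.add_ne_top.mpr ⟨hfG, hfF⟩) hsumle
  have h2K : K + K ≤ tr b (pw p F) + tr b (pw p F) := by
    have h1 : (K + K) + (K + K) ≤ (K + K) + (tr b (pw p F) + tr b (pw p F)) := by
      calc (K + K) + (K + K) ≤ (tr b (pw p G) + tr b (pw p F)) +
            (tr b (pw p G) + tr b (pw p F)) := add_le_add hsumle hsumle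
        _ = (tr b (pw p G) + tr b (pw p G)) + (tr b (pw p F) + tr b (pw p F)) := by abel
        _ ≤ (Qp b p x + Qp b p y) + (tr b (pw p F) + tr b (pw p F)) := add_le_add jG.1 le_rfl
        _ ≤ _ := add_le_add hxy le_rfl
    exact (ENNReal.add_le_add_iff_left hKfin).mp h1
  have hab : ab x = ab y := jF.2 (hxy.trans h2K) hfF
  have hAB : star x * x = star y * y :=
    pw_inj (r := 1 / 2) (by norm_num) (star_mul_self_nonneg x) (star_mul_self_nonneg y) hab
  have hpar := par c d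
  rw [← hx, ← hy, ← hAB] at hpar
  have hAsum : star x * x = star c * c + star d * d := by
    have h1 : (2 : ℂ) • (star x * x) = (2 : ℂ) • (star c * c + star d * d) := by
      rw [two_smul, two_smul]; exact hpar
    exact smul_right_injective _ (two_ne_zero) h1
  have hle : star c * c ≤ star c * c + star d * d :=
    le_add_of_nonneg_right (star_mul_self_nonneg d)
  have hm := pw_mono (r := p / 2) (by positivity) (by linarith) hC0 hle
  have htr : tr b (pw (p / 2) (star c * c + star d * d)) ≤ tr b (pw (p / 2) (star c * c)) := by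
    rw [← hAsum]
    exact ha
  have hKf : tr b (pw (p / 2) (star c * c)) ≠ ⊤ := (ENNReal.add_ne_top.mp hKfin).1
  have heq := eq_of_tr_eq b (pw_nonneg _ hC0) hm htr hKf
  have heq2 := pw_inj (r := p / 2) (by positivity) hC0
    (add_nonneg hC0 (star_mul_self_nonneg d)) heq
  have hdd : star d * d = 0 := by
    have h1 : star c * c + star d * d = star c * c + 0 := by rw [add_zero]; exact heq2.symm
    exact add_left_cancel h1
  exact (CStarRing.star_mul_self_eq_zero_iff d).mp hdd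

/-- Strict convexity. -/
lemma strict (b : HilbertBasis ι ℂ H) {p : ℝ} (hp1 : 1 < p) (hp : p ≠ 2) {c d : H →L[ℂ] H}
    (hfa : Qp b p (c + d) ≠ ⊤) (hfb : Qp b p (c - d) ≠ ⊤)
    (ha : Qp b p (c + d) ≤ Qp b p c) (hb : Qp b p (c - d) ≤ Qp b p c) : d = 0 := by
  rcases lt_or_gt_of_ne hp with hlt | hgt
  · exact strict_lt b hp1 hlt hfa hfb ha hb
  · have hp0 : 0 < p := by linarith
    have hxc := compact_of_Qp b hp0 hfa
    have hyc := compact_of_Qp b hp0 hfb
    have hcxy : c = (2⁻¹ : ℂ) • ((c + d) + (c - d)) := by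
      rw [add_add_sub_cancel, ← two_smul ℂ c, smul_smul]
      norm_num
    have hdxy : d = (2⁻¹ : ℂ) • ((c + d) + (-1 : ℂ) • (c - d)) := by
      have : (c + d) + (-1 : ℂ) • (c - d) = (2 : ℂ) • d := by
        rw [neg_smul, one_smul, two_smul]; abel
      rw [this, smul_smul]
      norm_num
    have hcc : IsCompactOperator c := by
      rw [hcxy]
      exact compact_smul (compact_add hxc hyc) _
    have hdc : IsCompactOperator d := by
      rw [hdxy]
      exact compact_smul (compact_add hxc (compact_smul hyc _)) _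
    have h1 := clark_gt b hgt hcc hdc
    have hfin : Qp b p c + Qp b p c ≠ ⊤ := by
      refine ne_top_of_le_ne_top (ENNReal.add_ne_top.mpr ⟨hfa, hfb⟩) (le_trans ?_ h1)
      exact add_le_add le_self_add le_self_add
    have h2 : (Qp b p c + Qp b p c) + (Qp b p d + Qp b p d) ≤ (Qp b p c + Qp b p c) + 0 := by
      rw [add_zero]
      calc (Qp b p c + Qp b p c) + (Qp b p d + Qp b p d)
          = (Qp b p c + Qp b p d) + (Qp b p c + Qp b p d) := by abel
        _ ≤ Qp b p (c + d) + Qp b p (c - d) := h1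
        _ ≤ Qp b p c + Qp b p c := add_le_add ha hb
    have h3 := (ENNReal.add_le_add_iff_left hfin).mp h2
    have h4 : Qp b p d = 0 := by
      have : Qp b p d ≤ 0 := le_self_add.trans h3
      exact le_antisymm this zero_le
    exact Qp_eq_zero b hp0 h4

end Pool.Agent.H44.Sch
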